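import Pool.Agent.Y92.GS.Span

/-!
# Moving frames, split vectors
-/

namespace Pool.Agent.Y92.GS

open Filter Asymptotics Finset Metric
open scoped Topology ComplexConjugate

variable {κ : Type*} [Fintype κ] [DecidableEq κ]

/-- real vectors -/
def IsR (v : κ → ℂ) : Prop := ∀ i, (v i).im = 0

/-- vectors supported on `P` -/
def Off (P : κ → Prop) (c : κ → ℂ) : Prop := ∀ j, ¬ P j → c j = 0

/-- `v` is real modulo the image under `Φ` of the vectors supported on `P` -/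
def SplitAt (Φ : (κ → ℂ) →L[ℂ] (κ → ℂ)) (P : κ → Prop) (v : κ → ℂ) : Prop :=
  ∃ c, Off P c ∧ IsR (v - Φ c)

omit [Fintype κ] [DecidableEq κ] in
theorem isClosed_isR : IsClosed {v : κ → ℂ | IsR v} := by
  have : {v : κ → ℂ | IsR v} = ⋂ k, {w | (w k).im = 0} := by
    ext w; simp [IsR]
  rw [this]
  refine isClosed_iInter fun k => ?_
  exact isClosed_eq (Complex.continuous_im.comp (continuous_apply k)) continuous_const

omit [Fintype κ] [DecidableEq κ] in
theorem isClosed_off (P : κ → Prop) : IsClosed {v : κ → ℂ | Off P v} := by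
  have : {v : κ → ℂ | Off P v} = ⋂ k, ⋂ _ : ¬ P k, {w | w k = 0} := by
    ext w; simp [Off]
  rw [this]
  refine isClosed_iInter fun k => isClosed_iInter fun _ => ?_
  exact isClosed_eq (continuous_apply k) continuous_const

omit [Fintype κ] [DecidableEq κ] in
theorem IsR.add {v w : κ → ℂ} (hv : IsR v) (hw : IsR w) : IsR (v + w) := fun i => by
  simp [hv i, hw i]

omit [Fintype κ] [DecidableEq κ] in
theorem IsR.sub {v w : κ → ℂ} (hv : IsR v) (hw : IsR w) : IsR (v - w) := fun i => by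
  simp [hv i, hw i]

omit [Fintype κ] [DecidableEq κ] in
theorem IsR.smul {v : κ → ℂ} (hv : IsR v) {t : ℂ} (ht : t.im = 0) : IsR (t • v) := fun i => by
  simp [hv i, ht]

omit [Fintype κ] [DecidableEq κ] in
theorem Off.add {P : κ → Prop} {v w : κ → ℂ} (hv : Off P v) (hw : Off P w) : Off P (v + w) :=
  fun i hi => by simp [hv i hi, hw i hi]

omit [Fintype κ] [DecidableEq κ] in
theorem Off.sub {P : κ → Prop} {v w : κ → ℂ} (hv : Off P v) (hw : Off P w) : Off P (v - w) :=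
  fun i hi => by simp [hv i hi, hw i hi]

omit [Fintype κ] [DecidableEq κ] in
theorem Off.smul {P : κ → Prop} {v : κ → ℂ} (hv : Off P v) (t : ℂ) : Off P (t • v) :=
  fun i hi => by simp [hv i hi]

omit [Fintype κ] [DecidableEq κ] in
theorem Off.mono {P Q : κ → Prop} (h : ∀ j, P j → Q j) {v : κ → ℂ} (hv : Off P v) : Off Q v :=
  fun i hi => hv i (fun h' => hi (h i h'))

omit [DecidableEq κ] in
theorem tendsto_clm_apply {ι : Type*} {l : Filter ι} {A : ι → (κ → ℂ) →L[ℂ] (κ → ℂ)}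
    {A₀ : (κ → ℂ) →L[ℂ] (κ → ℂ)} {v : ι → κ → ℂ} {v₀ : κ → ℂ} (hA : Tendsto A l (𝓝 A₀))
    (hv : Tendsto v l (𝓝 v₀)) : Tendsto (fun n => A n (v n)) l (𝓝 (A₀ v₀)) := by
  have h := (isBoundedBilinearMap_apply (𝕜 := ℂ) (E := κ → ℂ) (F := κ → ℂ)).continuous.tendsto
    (A₀, v₀)
  exact h.comp (hA.prodMk_nhds hv)

omit [DecidableEq κ] in
theorem antilip {Φ : ℂ → (κ → ℂ) →L[ℂ] (κ → ℂ)} (hΦ : ContinuousAt Φ 0) {P : κ → Prop}
    (hpos : ∀ c, Off P c → IsR (Φ 0 c) → c = 0) :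
    ∃ m : ℝ, 0 < m ∧ ∀ᶠ u in 𝓝 (0 : ℂ), ∀ c, Off P c → ∀ v : κ → ℂ, IsR (v - Φ u c) →
      m * ‖c‖ ≤ ‖v‖ := by
  set S : Set (κ → ℂ) := {c | Off P c} ∩ sphere 0 1 with hS
  have hScomp : IsCompact S := (isCompact_sphere 0 1).inter_left (isClosed_off P)
  set F : (κ → ℂ) → ℝ := fun c => ‖(fun i => ((Φ 0 c) i).im : κ → ℝ)‖ with hF
  have hFc : Continuous F := by
    refine Continuous.norm ?_
    refine continuous_pi fun i => ?_
    exact Complex.continuous_im.comp ((continuous_apply i).comp (Φ 0).continuous)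
  have himle : ∀ w : κ → ℂ, ‖(fun i => (w i).im : κ → ℝ)‖ ≤ ‖w‖ := by
    intro w
    rw [pi_norm_le_iff_of_nonneg (norm_nonneg _)]
    intro i
    exact (Complex.abs_im_le_norm _).trans (norm_le_pi_norm w i)
  rcases S.eq_empty_or_nonempty with hSe | hSn
  · refine ⟨1, one_pos, Eventually.of_forall fun u c hc v _ => ?_⟩
    have : c = 0 := by
      by_contra hne
      have hn : ‖c‖ ≠ 0 := norm_ne_zero_iff.mpr hne
      have : ((‖c‖⁻¹ : ℝ) : ℂ) • c ∈ S := by
        refine ⟨hc.smul _, ?_⟩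
        rw [mem_sphere_zero_iff_norm, norm_smul, Complex.norm_real, norm_inv, norm_norm,
          inv_mul_cancel₀ hn]
      rw [hSe] at this
      exact this
    rw [this, norm_zero, mul_zero]
    exact norm_nonneg _
  · obtain ⟨c₀, hc₀, hmin⟩ := hScomp.exists_isMinOn hSn hFc.continuousOn
    have hm : 0 < F c₀ := by
      rw [hF]
      simp only
      rw [norm_pos_iff]
      intro h0
      have h1 : IsR (Φ 0 c₀) := fun i => congrFun h0 i
      have h2 := hpos c₀ hc₀.1 h1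
      have h3 := hc₀.2
      rw [h2, mem_sphere_zero_iff_norm, norm_zero] at h3
      exact zero_ne_one h3
    refine ⟨F c₀ / 2, by positivity, ?_⟩
    have hev : ∀ᶠ u in 𝓝 (0 : ℂ), ‖Φ u - Φ 0‖ < F c₀ / 2 := by
      have := hΦ.eventually (Metric.ball_mem_nhds (Φ 0) (half_pos hm))
      filter_upwards [this] with u hu
      rwa [dist_eq_norm] at hu
    filter_upwards [hev] with u hu c hc v hv
    by_cases hc0 : c = 0
    · rw [hc0, norm_zero, mul_zero]
      exact norm_nonneg _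
    have hn : 0 < ‖c‖ := norm_pos_iff.mpr hc0
    have hmem : ((‖c‖⁻¹ : ℝ) : ℂ) • c ∈ S := by
      refine ⟨hc.smul _, ?_⟩
      rw [mem_sphere_zero_iff_norm, norm_smul, Complex.norm_real, norm_inv, norm_norm,
        inv_mul_cancel₀ hn.ne']
    have h1 : F c₀ ≤ F (((‖c‖⁻¹ : ℝ) : ℂ) • c) := hmin hmem
    have h2 : F (((‖c‖⁻¹ : ℝ) : ℂ) • c) = ‖c‖⁻¹ * F c := by
      simp only [hF, map_smul, Pi.smul_apply, smul_eq_mul, Complex.im_ofReal_mul]
      have : (fun i => ‖c‖⁻¹ * ((Φ 0 c) i).im) = ‖c‖⁻¹ • (fun i => ((Φ 0 c) i).im : κ → ℝ) := by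
        ext i; simp
      rw [this, norm_smul, norm_inv, norm_norm]
    rw [h2] at h1
    have h3 : F c₀ * ‖c‖ ≤ F c := by
      rw [← div_eq_inv_mul] at h1
      rwa [le_div_iff₀ hn] at h1
    have h4 : F c ≤ ‖v‖ + ‖Φ u - Φ 0‖ * ‖c‖ := by
      have e1 : (fun i => ((Φ 0 c) i).im : κ → ℝ)
          = (fun i => (v i).im) - fun i => (((Φ u - Φ 0) c) i).im := by
        ext i
        have := hv i
        simp only [Pi.sub_apply, Complex.sub_im, _root_.sub_apply] at this ⊢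
        linarith
      calc F c = ‖(fun i => (v i).im : κ → ℝ) - fun i => (((Φ u - Φ 0) c) i).im‖ := by
            rw [hF]; simp only; rw [e1]
        _ ≤ ‖(fun i => (v i).im : κ → ℝ)‖ + ‖(fun i => (((Φ u - Φ 0) c) i).im : κ → ℝ)‖ :=
            norm_sub_le _ _
        _ ≤ ‖v‖ + ‖(Φ u - Φ 0) c‖ := add_le_add (himle _) (himle _)
        _ ≤ ‖v‖ + ‖Φ u - Φ 0‖ * ‖c‖ := by
            gcongr
            exact (Φ u - Φ 0).le_opNorm c
    nlinarith

omit [DecidableEq κ] in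
/-- the split condition passes to limits -/
theorem split_limit {Φ : ℂ → (κ → ℂ) →L[ℂ] (κ → ℂ)} (hΦ : ContinuousAt Φ 0) {P : κ → Prop}
    (hpos : ∀ c, Off P c → IsR (Φ 0 c) → c = 0) {u : ℕ → ℂ} (hu : Tendsto u atTop (𝓝 0))
    {v : ℕ → κ → ℂ} {v₀ : κ → ℂ} (hv : Tendsto v atTop (𝓝 v₀))
    (h : ∀ n, SplitAt (Φ (u n)) P (v n)) : SplitAt (Φ 0) P v₀ := by
  choose c hc hr using h
  obtain ⟨m, hm, hev⟩ := antilip hΦ hpos
  have h1 : ∀ᶠ n in atTop, ‖c n‖ ≤ (‖v₀‖ + 1) / m := by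
    have h2 : ∀ᶠ n in atTop, ‖v n‖ < ‖v₀‖ + 1 :=
      hv.norm.eventually (gt_mem_nhds (by linarith))
    filter_upwards [hu.eventually hev, h2] with n hn hn2
    have := hn (c n) (hc n) (v n) (hr n)
    rw [le_div_iff₀ hm]
    linarith
  obtain ⟨n₀, hn₀⟩ := h1.exists_forall_of_atTop
  obtain ⟨c₀, -, φ, hφ, hlim⟩ := tendsto_subseq_of_bounded (x := fun n => c (n + n₀))
    (s := closedBall (0 : κ → ℂ) ((‖v₀‖ + 1) / m)) isBounded_closedBall
    (fun n => by rw [mem_closedBall_zero_iff]; exact hn₀ _ (by omega))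
  have hmono : Tendsto (fun n => φ n + n₀) atTop atTop :=
    tendsto_atTop_mono (fun n => Nat.le_add_right _ _) hφ.tendsto_atTop
  refine ⟨c₀, (isClosed_off P).mem_of_tendsto hlim (Eventually.of_forall fun n => hc _), ?_⟩
  have h3 : Tendsto (fun n => Φ (u (φ n + n₀))) atTop (𝓝 (Φ 0)) :=
    hΦ.tendsto.comp (hu.comp hmono)
  have h4 : Tendsto (fun n => (Φ (u (φ n + n₀))) (c (φ n + n₀))) atTop (𝓝 (Φ 0 c₀)) :=
    tendsto_clm_apply h3 hlim
  have h5 : Tendsto (fun n => v (φ n + n₀) - (Φ (u (φ n + n₀))) (c (φ n + n₀))) atTop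
      (𝓝 (v₀ - Φ 0 c₀)) := (hv.comp hmono).sub h4
  exact isClosed_isR.mem_of_tendsto h5 (Eventually.of_forall fun n => hr _)

omit [DecidableEq κ] in
/-- comparison of leading coefficients -/
theorem leading {Ω : ℂ → (κ → ℂ) →L[ℂ] (κ → ℂ)} (hΩ : ContinuousAt Ω 0) {α : ℂ → κ → ℂ}
    (hα : AnalyticAt ℂ α 0) (m : ℕ) {i : κ}
    (heq : ∀ᶠ u in 𝓝[≠] (0 : ℂ),
      (2 * Real.pi * Complex.I * u) * deriv (fun u => u ^ m * α u i) u
        = -(Ω u (u ^ m • α u)) i) :
    2 * Real.pi * Complex.I * m * α 0 i = -(Ω 0 (α 0)) i := by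
  have hαi : AnalyticAt ℂ (fun u => α u i) 0 := (ContinuousLinearMap.proj (R := ℂ)
    (φ := fun _ : κ => ℂ) i).analyticAt _ |>.comp hα
  have hd : ∀ᶠ u in 𝓝 (0 : ℂ), AnalyticAt ℂ (fun u => α u i) u := hαi.eventually_analyticAt
  have hdc : ContinuousAt (deriv (fun u => α u i)) 0 := hαi.deriv.continuousAt
  have hαc : ContinuousAt (fun u => α u i) 0 := hαi.continuousAt
  have h1 : ∀ᶠ u in 𝓝[≠] (0 : ℂ), 2 * Real.pi * Complex.I * m * α u i
      + 2 * Real.pi * Complex.I * u * deriv (fun u => α u i) u = -(Ω u (α u)) i := by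
    filter_upwards [heq, nhdsWithin_le_nhds hd, self_mem_nhdsWithin] with u hu hud hu0
    have hu0' : u ≠ 0 := hu0
    have e1 : deriv (fun u => u ^ m * α u i) u
        = (m : ℂ) * u ^ (m - 1) * α u i + u ^ m * deriv (fun u => α u i) u := by
      have := (hasDerivAt_pow m u).mul hud.differentiableAt.hasDerivAt
      exact this.deriv
    rw [e1, map_smul, Pi.smul_apply, smul_eq_mul] at hu
    have e2 : u * ((m : ℂ) * u ^ (m - 1)) = m * u ^ m := by
      rcases m with _ | m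
      · simp
      · rw [Nat.add_sub_cancel, pow_succ]; ring
    have e3 : u ^ m * (2 * Real.pi * Complex.I * m * α u i
        + 2 * Real.pi * Complex.I * u * deriv (fun u => α u i) u)
        = u ^ m * -(Ω u (α u)) i := by
      rw [mul_neg, ← hu]
      calc u ^ m * (2 * Real.pi * Complex.I * m * α u i
            + 2 * Real.pi * Complex.I * u * deriv (fun u => α u i) u)
          = 2 * Real.pi * Complex.I * (m * u ^ m) * α u i
            + 2 * Real.pi * Complex.I * u * (u ^ m * deriv (fun u => α u i) u) := by ring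
        _ = _ := by rw [← e2]; ring
    exact mul_left_cancel₀ (pow_ne_zero m hu0') e3
  have h2 : Tendsto (fun u : ℂ => 2 * Real.pi * Complex.I * m * α u i
      + 2 * Real.pi * Complex.I * u * deriv (fun u => α u i) u) (𝓝[≠] 0)
      (𝓝 (2 * Real.pi * Complex.I * m * α 0 i
        + 2 * Real.pi * Complex.I * 0 * deriv (fun u => α u i) 0)) := by
    refine Tendsto.mono_left ?_ nhdsWithin_le_nhds
    refine (hαc.tendsto.const_mul _).add ?_
    exact (tendsto_id.const_mul _).mul hdc.tendsto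
  have h3 : Tendsto (fun u : ℂ => -(Ω u (α u)) i) (𝓝[≠] 0) (𝓝 (-(Ω 0 (α 0)) i)) := by
    refine Tendsto.mono_left ?_ nhdsWithin_le_nhds
    have h4 : Tendsto (fun u => Ω u (α u)) (𝓝 0) (𝓝 (Ω 0 (α 0))) :=
      tendsto_clm_apply hΩ.tendsto hα.continuousAt.tendsto
    exact ((tendsto_pi_nhds.mp h4) i).neg
  have h5 := tendsto_nhds_unique (h2.congr' h1) h3
  rw [mul_zero, zero_mul, add_zero] at h5
  exact h5

end Pool.Agent.Y92.GS
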