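import Pool.Agent.Y92.GS.Interior

/-!
# Algebraic criterion for split vectors, and other preparations for the theorem at the cusp
-/

namespace Pool.Agent.Y92.GS

open Pool.Agent.Y92.RS Filter Asymptotics Finset Metric Matrix
open scoped Topology ComplexConjugate Nat

variable {κ : Type*} [Fintype κ] [DecidableEq κ]

/-- complex conjugation of vectors -/
def cj (v : κ → ℂ) : κ → ℂ := fun i => conj (v i)

omit [Fintype κ] [DecidableEq κ] in
theorem cj_apply (v : κ → ℂ) (i : κ) : cj v i = conj (v i) := rfl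

omit [Fintype κ] [DecidableEq κ] in
theorem cj_cj (v : κ → ℂ) : cj (cj v) = v := by ext i; simp [cj]

omit [Fintype κ] [DecidableEq κ] in
theorem cj_add (v w : κ → ℂ) : cj (v + w) = cj v + cj w := by ext i; simp [cj]

omit [Fintype κ] [DecidableEq κ] in
theorem cj_sub (v w : κ → ℂ) : cj (v - w) = cj v - cj w := by ext i; simp [cj]

omit [Fintype κ] [DecidableEq κ] in
theorem cj_smul (t : ℂ) (w : κ → ℂ) : cj (t • w) = conj t • cj w := by ext i; simp [cj]

omit [Fintype κ] [DecidableEq κ] in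
theorem isR_iff_cj {v : κ → ℂ} : IsR v ↔ cj v = v := by
  constructor
  · intro h
    ext i
    exact Complex.conj_eq_iff_im.mpr (h i)
  · intro h i
    exact Complex.conj_eq_iff_im.mp (congrFun h i)

/-- the matrix with columns `X e_j` and their conjugates, `j` in `P` -/
noncomputable def Bmat (X : (κ → ℂ) →L[ℂ] (κ → ℂ)) (P : κ → Prop) :
    Matrix κ ({j // P j} ⊕ {j // P j}) ℂ :=
  Matrix.of fun i s => Sum.elim (fun j => X (Pi.single j.1 1) i)
    (fun j => conj (X (Pi.single j.1 1) i)) s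

open Classical in
theorem apply_off (X : (κ → ℂ) →L[ℂ] (κ → ℂ)) {P : κ → Prop} {c : κ → ℂ} (hc : Off P c) (i : κ) :
    X c i = ∑ j : {j // P j}, X (Pi.single j.1 1) i * c j.1 := by
  have h1 : X c = ∑ j, c j • X (Pi.single j 1) := by
    have := LinearMap.pi_apply_eq_sum_univ (X : (κ → ℂ) →ₗ[ℂ] (κ → ℂ)) c
    rw [ContinuousLinearMap.coe_coe] at this
    rw [this]
    refine Finset.sum_congr rfl fun j _ => ?_
    congr 2
    ext k
    rw [Pi.single_apply]
    simp only [eq_comm]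
  rw [h1, Finset.sum_apply]
  have h2 : ∑ j, (c j • X (Pi.single j 1)) i
      = ∑ j ∈ univ.filter P, (c j • X (Pi.single j 1)) i := by
    symm
    apply Finset.sum_filter_of_ne
    intro j _ hj
    by_contra hP
    apply hj
    rw [hc j hP, zero_smul]
    rfl
  rw [h2, Finset.sum_subtype (univ.filter P) (p := P) (by simp)]
  refine Finset.sum_congr rfl fun j _ => ?_
  rw [Pi.smul_apply, smul_eq_mul, mul_comm]

open Classical in
theorem Bmat_mulVec (X : (κ → ℂ) →L[ℂ] (κ → ℂ)) {P : κ → Prop} {c d : κ → ℂ} (hc : Off P c)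
    (hd : Off P d) : (Bmat X P) *ᵥ (Sum.elim (fun j => c j.1) (fun j => conj (d j.1)))
      = X c + cj (X d) := by
  ext i
  rw [Pi.add_apply, cj_apply, apply_off X hc, apply_off X hd, map_sum]
  simp only [Matrix.mulVec, dotProduct, Fintype.sum_sum_type, Bmat, Matrix.of_apply,
    Sum.elim_inl, Sum.elim_inr, map_mul]

open Classical in
theorem Bmat_exists (X : (κ → ℂ) →L[ℂ] (κ → ℂ)) {P : κ → Prop} (t : {j // P j} ⊕ {j // P j} → ℂ) :
    ∃ c d : κ → ℂ, Off P c ∧ Off P d ∧ (Bmat X P) *ᵥ t = X c + cj (X d) ∧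
      (c = 0 → d = 0 → t = 0) := by
  set c : κ → ℂ := fun j => if h : P j then t (Sum.inl ⟨j, h⟩) else 0 with hc
  set d : κ → ℂ := fun j => if h : P j then conj (t (Sum.inr ⟨j, h⟩)) else 0 with hd
  have hcP : Off P c := fun j hj => by simp [hc, hj]
  have hdP : Off P d := fun j hj => by simp [hd, hj]
  have ht : t = Sum.elim (fun j => c j.1) (fun j => conj (d j.1)) := by
    ext s
    rcases s with ⟨j, hj⟩ | ⟨j, hj⟩
    · simp [hc, hj]
    · simp [hd, hj]
  refine ⟨c, d, hcP, hdP, ?_, ?_⟩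
  · conv_lhs => rw [ht]
    exact Bmat_mulVec X hcP hdP
  · intro h1 h2
    rw [ht, h1, h2]
    ext s
    rcases s with s | s <;> simp

/-- positivity of `X` on `P` -/
def Pos (X : (κ → ℂ) →L[ℂ] (κ → ℂ)) (P : κ → Prop) : Prop :=
  ∀ c, Off P c → IsR (X c) → c = 0

omit [DecidableEq κ] in
theorem Pos.eq_zero_of_anti {X : (κ → ℂ) →L[ℂ] (κ → ℂ)} {P : κ → Prop} (hX : Pos X P)
    {c : κ → ℂ} (hc : Off P c) (h : cj (X c) = -X c) : c = 0 := by
  have h1 : IsR (X (Complex.I • c)) := by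
    rw [isR_iff_cj, map_smul, cj_smul, h, Complex.conj_I, smul_neg, neg_smul, neg_neg]
  have h2 := hX _ (hc.smul Complex.I) h1
  exact (smul_eq_zero.mp h2).resolve_left Complex.I_ne_zero

open Classical in
theorem Bmat_inj {X : (κ → ℂ) →L[ℂ] (κ → ℂ)} {P : κ → Prop} (hX : Pos X P)
    (t : {j // P j} ⊕ {j // P j} → ℂ) (ht : (Bmat X P) *ᵥ t = 0) : t = 0 := by
  obtain ⟨c, d, hc, hd, h1, h2⟩ := Bmat_exists X t
  rw [ht] at h1
  have h3 : cj (X c) + X d = 0 := by
    have := congrArg cj h1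
    rw [cj_add, cj_cj] at this
    rw [← this]
    ext i; simp [cj]
  have h4 : X c + cj (X d) = 0 := h1.symm
  have h5 : c = d := by
    have : IsR (X (c - d)) := by
      rw [isR_iff_cj, map_sub, cj_sub, eq_neg_of_add_eq_zero_left h3,
        eq_neg_of_add_eq_zero_right h4]
      abel
    exact sub_eq_zero.mp (hX _ (hc.sub hd) this)
  subst h5
  have h6 : c = 0 := hX.eq_zero_of_anti hc (eq_neg_of_add_eq_zero_left h3)
  exact h2 h6 h6

open Classical in
theorem resid_of_split {X : (κ → ℂ) →L[ℂ] (κ → ℂ)} {P : κ → Prop} {v : κ → ℂ}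
    (h : SplitAt X P v) : resid (Bmat X P) (v - cj v) = 0 := by
  obtain ⟨c, hc, hr⟩ := h
  have h1 : v - cj v = X c + cj (X (-c)) := by
    rw [isR_iff_cj, cj_sub] at hr
    rw [map_neg]
    have : cj (-(X c)) = -cj (X c) := by ext i; simp [cj]
    rw [this]
    have h2 : cj v = v - X c + cj (X c) := by rw [← hr]; abel
    rw [h2]
    abel
  rw [h1, ← Bmat_mulVec X hc (d := -c) (fun j hj => by simp [hc j hj])]
  exact resid_mulVec _ _

open Classical in
theorem split_of_resid {X : (κ → ℂ) →L[ℂ] (κ → ℂ)} {P : κ → Prop} (hX : Pos X P) {v : κ → ℂ}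
    (h : resid (Bmat X P) (v - cj v) = 0) : SplitAt X P v := by
  obtain ⟨t, ht⟩ := exists_of_resid (Bmat_inj hX) h
  obtain ⟨c, d, hc, hd, h1, -⟩ := Bmat_exists X t
  rw [← ht] at h1
  have h2 : cj v - v = cj (X c) + X d := by
    have := congrArg cj h1
    rw [cj_add, cj_cj, cj_sub, cj_cj] at this
    exact this
  have h3 : cj (X (c + d)) = -X (c + d) := by
    rw [map_add, cj_add]
    have : (v - cj v) + (cj v - v) = 0 := by abel
    rw [h1, h2] at this
    apply eq_neg_of_add_eq_zero_left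
    rw [← this]
    abel
  have h4 : c + d = 0 := hX.eq_zero_of_anti (hc.add hd) h3
  have h5 : d = -c := (neg_eq_of_add_eq_zero_right h4).symm
  refine ⟨c, hc, ?_⟩
  rw [isR_iff_cj, cj_sub]
  rw [h5, map_neg] at h1
  have : cj (-(X c)) = -cj (X c) := by ext i; simp [cj]
  rw [this] at h1
  have h6 : v = X c + -cj (X c) + cj v := by rw [← h1]; abel
  conv_rhs => rw [h6]
  abel

omit [Fintype κ] [DecidableEq κ] in
/-- two vectors with the same rank one hermitian matrix differ by a unit -/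
theorem exists_unit {A A' : κ → ℂ} (h : ∀ i j, A i * conj (A j) = A' i * conj (A' j)) :
    ∃ θ : ℂ, ‖θ‖ = 1 ∧ θ • A = conj θ • A' := by
  by_cases hA : ∀ j, A j = 0
  · refine ⟨1, norm_one, ?_⟩
    ext i
    have h1 := h i i
    rw [hA i, zero_mul, Complex.mul_conj] at h1
    have h2 : Complex.normSq (A' i) = 0 := by exact_mod_cast h1.symm
    simp [hA i, Complex.normSq_eq_zero.mp h2]
  push Not at hA
  obtain ⟨j, hj⟩ := hA
  have h1 := h j j
  rw [Complex.mul_conj, Complex.mul_conj] at h1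
  have h2 : Complex.normSq (A j) = Complex.normSq (A' j) := by exact_mod_cast h1
  have hj' : A' j ≠ 0 := by
    intro h0
    rw [h0, map_zero, Complex.normSq_eq_zero] at h2
    exact hj h2
  obtain ⟨θ, hθ⟩ : ∃ θ : ℂ, θ ^ 2 = A' j / A j := IsAlgClosed.exists_pow_nat_eq _ (by norm_num)
  have hn : ‖A' j / A j‖ = 1 := by
    rw [norm_div, div_eq_one_iff_eq (norm_ne_zero_iff.mpr hj)]
    have h3 : ‖A j‖ ^ 2 = ‖A' j‖ ^ 2 := by
      rw [Complex.normSq_eq_norm_sq, Complex.normSq_eq_norm_sq] at h2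
      exact h2
    have := (sq_eq_sq₀ (norm_nonneg _) (norm_nonneg _)).mp h3
    exact this.symm
  have hθ1 : ‖θ‖ = 1 := by
    have : ‖θ‖ ^ 2 = 1 := by rw [← norm_pow, hθ, hn]
    exact (pow_eq_one_iff_of_nonneg (norm_nonneg θ) two_ne_zero).mp this
  refine ⟨θ, hθ1, ?_⟩
  ext i
  simp only [Pi.smul_apply, smul_eq_mul]
  have hθθ : conj θ * θ = 1 := by
    rw [mul_comm, Complex.mul_conj, Complex.normSq_eq_norm_sq, hθ1]
    norm_num
  have h4 : A' i = A i * θ ^ 2 := by
    rw [hθ]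
    have h5 := h i j
    have hcj : conj (A' j) ≠ 0 := (map_ne_zero _).mpr hj'
    have h6 : A' i = A i * conj (A j) / conj (A' j) := by
      rw [h5, mul_div_assoc, div_self hcj, mul_one]
    rw [h6]
    have h7 : A j * conj (A j) = A' j * conj (A' j) := h j j
    field_simp
    linear_combination (A i) * h7
  rw [h4]
  calc θ * A i = (conj θ * θ) * (θ * A i) := by rw [hθθ, one_mul]
    _ = conj θ * (A i * θ ^ 2) := by ring

end Pool.Agent.Y92.GS
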