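import Pool.Agent.Y92.GS.Model

/-!
# The theorem at the cusp
-/

namespace Pool.Agent.Y92.GS

open Pool.Agent.Y92.RS Filter Asymptotics Finset Metric Matrix
open scoped Topology ComplexConjugate Nat

variable {κ : Type*} [Fintype κ] [DecidableEq κ] (S : Setup κ)

theorem qq_pow_arg {m : ℕ} (hm : m ≠ 0) {θ : ℂ} (hθ : ‖θ‖ = 1) (y : ℝ) :
    (qq (((Complex.arg θ / (2 * Real.pi * m) : ℝ) : ℂ) + y * Complex.I)) ^ m
      = ((Real.exp (-(2 * Real.pi * m * y)) : ℝ) : ℂ) * θ := by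
  unfold qq
  rw [← Complex.exp_nat_mul]
  have hm' : (m : ℂ) ≠ 0 := by exact_mod_cast hm
  have hpi : (Real.pi : ℂ) ≠ 0 := by exact_mod_cast Real.pi_ne_zero
  have h1 : (m : ℂ) * (2 * Real.pi * Complex.I *
      (((Complex.arg θ / (2 * Real.pi * m) : ℝ) : ℂ) + y * Complex.I))
      = ((-(2 * Real.pi * m * y) : ℝ) : ℂ) + (Complex.arg θ : ℂ) * Complex.I := by
    push_cast
    field_simp
    ring_nf
    rw [Complex.I_sq]
    ring
  rw [h1, Complex.exp_add, Complex.ofReal_exp]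
  congr 1
  have := Complex.norm_mul_exp_arg_mul_I θ
  rw [hθ] at this
  simpa using this

/-- Steps 6 and 7: a nonzero leading term cannot be split at infinitely many points -/
theorem Setup.leading_eq_zero {m : ℕ} (hm : m ≠ 0) {α₀ : κ → ℂ}
    (hlead : ∀ i, ¬ S.P₁ i → 2 * Real.pi * Complex.I * m * α₀ i
      = -(S.Ψ 0 (S.N (S.Φ 0 α₀))) i)
    (hs : ∀ y : ℝ, S.y₀ < y → ∃ θ : ℂ, ‖θ‖ = 1 ∧
      SplitAt (ex S.N (y * Complex.I) * S.Φ 0) S.P₀
        (θ • ex S.N (y * Complex.I) (S.Φ 0 α₀))) :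
    Off (fun j => S.P₀ j) α₀ := by
  have hK := S.N_nil
  have hy : ∀ n : ℕ, S.y₀ < S.y₀ + 1 + 1 / ((n : ℝ) + 1) := fun n => by
    have h3 : (0 : ℝ) < 1 / ((n : ℝ) + 1) := by positivity
    linarith
  choose θ hθ1 hθs using fun n : ℕ => hs _ (hy n)
  have hm1 : (1 : ℝ) ≤ m := by exact_mod_cast Nat.one_le_iff_ne_zero.mpr hm
  have hpi := Real.pi_pos
  set x : ℕ → ℝ := fun n => Complex.arg (θ n) / (2 * Real.pi * m) with hx
  have hxb : ∀ n, x n ∈ Set.Icc (-1 : ℝ) 1 := by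
    intro n
    have h1 : |Complex.arg (θ n)| ≤ Real.pi := Complex.abs_arg_le_pi _
    have h2 : |x n| ≤ 1 := by
      rw [hx]
      simp only
      rw [abs_div, abs_of_pos (by positivity : (0 : ℝ) < 2 * Real.pi * m),
        div_le_one (by positivity)]
      nlinarith
    exact abs_le.mp h2
  obtain ⟨x₀, -, φ', hφ, hlim⟩ := isCompact_Icc.tendsto_subseq hxb
  have hylim : Tendsto (fun n : ℕ => (S.y₀ + 1 + 1 / ((n : ℝ) + 1))) atTop (𝓝 (S.y₀ + 1)) := by
    have h1 : Tendsto (fun n : ℕ => (S.y₀ + 1 + 1 / ((n : ℝ) + 1))) atTop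
        (𝓝 (S.y₀ + 1 + 0)) := tendsto_one_div_add_atTop_nhds_zero_nat.const_add _
    rwa [add_zero] at h1
  obtain ⟨h, hh, hc⟩ := S.model_const
    (μ := fun z => (qq z) ^ m • ex S.N z (S.Φ 0 α₀))
    (μ' := fun z => (qq z) ^ m • ex S.N z (S.N (S.Φ 0 α₀)
      + (2 * Real.pi * Complex.I * m) • S.Φ 0 α₀))
    (fun z => by
      have h1 := (hasDerivAt_qq z).pow m
      have h2 := h1.smul (hasDerivAt_ex_apply S.N z (S.Φ 0 α₀))
      refine h2.congr_deriv ?_
      obtain ⟨k, rfl⟩ : ∃ k, m = k + 1 := ⟨m - 1, by omega⟩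
      rw [ex_comm_apply, map_add, map_smul, smul_add, smul_smul, Nat.add_sub_cancel]
      congr 2
      rw [pow_succ]
      ring)
    (fun z i hi => by
      rw [map_smul, ex_neg_apply, map_smul, map_add, map_smul, S.inv2 0 S.mem0]
      simp only [Pi.smul_apply, Pi.add_apply, smul_eq_mul]
      rw [hlead i hi, add_neg_cancel, mul_zero])
    (z₀ := (x₀ : ℂ) + ((S.y₀ + 1 : ℝ) : ℂ) * Complex.I) (by simp)
    (z := fun n => ((x (φ' n) : ℝ) : ℂ)
      + ((S.y₀ + 1 + 1 / (((φ' n : ℕ) : ℝ) + 1) : ℝ) : ℂ) * Complex.I)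
    (by
      have h1 : Tendsto (fun n => ((x (φ' n) : ℝ) : ℂ)) atTop (𝓝 (x₀ : ℂ)) :=
        (Complex.continuous_ofReal.tendsto _).comp hlim
      have h2 : Tendsto (fun n => ((S.y₀ + 1 + 1 / (((φ' n : ℕ) : ℝ) + 1) : ℝ) : ℂ)) atTop
          (𝓝 ((S.y₀ + 1 : ℝ) : ℂ)) :=
        (Complex.continuous_ofReal.tendsto _).comp (hylim.comp hφ.tendsto_atTop)
      exact h1.add (h2.mul_const _))
    (fun n heq => by
      have h1 := congrArg Complex.im heq
      simp only [Complex.add_im, Complex.ofReal_im, Complex.mul_im, Complex.I_im, Complex.I_re,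
        mul_one, mul_zero, zero_add, add_zero, Complex.ofReal_re] at h1
      have h3 : (0 : ℝ) < 1 / (((φ' n : ℕ) : ℝ) + 1) := by positivity
      linarith)
    (fun n => by
      have h1 := hθs (φ' n)
      rw [← map_smul] at h1
      have h2 := (split_translate' (K := S.K) S.N_re hK (S.Φ 0) S.P₀ (θ (φ' n) • S.Φ 0 α₀)
        (x (φ' n)) ((S.y₀ + 1 + 1 / (((φ' n : ℕ) : ℝ) + 1) : ℝ) * Complex.I)).mpr h1
      have h3 := h2.smul_real (t := ((Real.exp (-(2 * Real.pi * m *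
        (S.y₀ + 1 + 1 / (((φ' n : ℕ) : ℝ) + 1)))) : ℝ) : ℂ)) (Complex.ofReal_im _)
      rw [qq_pow_arg hm (hθ1 (φ' n))]
      rw [map_smul, smul_smul] at h3
      exact h3)
  -- growth
  intro i hi
  obtain ⟨C, hC, hgr⟩ := ex_growth (N := S.N) hK
  have hbound : ∀ y : ℝ, 0 ≤ y → ‖α₀ i‖ ≤
      (‖S.Ψ 0‖ * C * ‖h‖) * (1 + y) ^ S.K * Real.exp (-(2 * Real.pi * y)) := by
    intro y hy0
    have h1 := hc (-(y * Complex.I)) i hi
    rw [map_sub, map_sub, Pi.sub_apply, sub_eq_zero, map_smul, ex_neg_apply, map_smul,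
      S.inv2 0 S.mem0, Pi.smul_apply, smul_eq_mul, neg_neg] at h1
    have h2 : ‖(qq (-(y * Complex.I))) ^ m‖ = Real.exp (2 * Real.pi * y * m) := by
      rw [norm_pow, norm_qq, ← Real.exp_nat_mul]
      congr 1
      simp
      ring
    have h3 : ‖(S.Ψ 0 (ex S.N (y * Complex.I) h)) i‖ ≤ ‖S.Ψ 0‖ * C * ‖h‖ * (1 + y) ^ S.K := by
      calc ‖(S.Ψ 0 (ex S.N (y * Complex.I) h)) i‖ ≤ ‖S.Ψ 0 (ex S.N (y * Complex.I) h)‖ :=
            norm_le_pi_norm _ i
        _ ≤ ‖S.Ψ 0‖ * (‖ex S.N (y * Complex.I)‖ * ‖h‖) :=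
            (S.Ψ 0).le_opNorm_of_le ((ex S.N (y * Complex.I)).le_opNorm h)
        _ ≤ ‖S.Ψ 0‖ * ((C * (1 + y) ^ S.K) * ‖h‖) := by gcongr; exact hgr y hy0
        _ = _ := by ring
    rw [← h1, norm_mul, h2] at h3
    have h4 : Real.exp (2 * Real.pi * y) ≤ Real.exp (2 * Real.pi * y * m) := by
      apply Real.exp_le_exp.mpr
      have : 0 ≤ 2 * Real.pi * y := by positivity
      nlinarith
    have h5 : Real.exp (2 * Real.pi * y) * ‖α₀ i‖ ≤ ‖S.Ψ 0‖ * C * ‖h‖ * (1 + y) ^ S.K :=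
      (mul_le_mul_of_nonneg_right h4 (norm_nonneg _)).trans h3
    rw [Real.exp_neg, ← div_eq_mul_inv, le_div_iff₀ (Real.exp_pos _), mul_comm]
    exact h5
  have hlim0 := tendsto_pow_mul_exp (‖S.Ψ 0‖ * C * ‖h‖) S.K
  have h6 : ‖α₀ i‖ ≤ 0 := by
    refine ge_of_tendsto hlim0 ?_
    filter_upwards [eventually_ge_atTop (0 : ℝ)] with y hy0
    exact hbound y hy0
  exact norm_le_zero_iff.mp h6

/-- **The theorem at the cusp.** -/
theorem Setup.cusp {b b' : ℂ → κ → ℂ} (hb : ∀ q ∈ ball (0 : ℂ) S.r, HasDerivAt b (b' q) q)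
    {w : κ → ℂ} (hw : IsR w)
    (hhor : ∀ q ∈ ball (0 : ℂ) S.r,
      Off S.P₁ (S.Ψ q (w + S.N (b q) + (2 * Real.pi * Complex.I * q) • b' q))) :
    (∃ y₁ : ℝ, ∀ z : ℂ, y₁ < z.im → ¬ SplitAt (ex S.N z * S.Φ (qq z)) S.P₀
      (tz S.N S.K z w + ex S.N z (b (qq z)))) ∨
    (∃ y₁ : ℝ, ∃ h, IsR h ∧ ∀ z : ℂ, y₁ < z.im → Off S.P₀ (S.Ψ (qq z) (ex S.N (-z)
      (tz S.N S.K z w + ex S.N z (b (qq z)) - h)))) := by
  classical
  by_cases hs : ∀ y₁ : ℝ, ∃ z : ℂ, y₁ < z.im ∧ SplitAt (ex S.N z * S.Φ (qq z)) S.P₀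
      (tz S.N S.K z w + ex S.N z (b (qq z)))
  swap
  · left
    push Not at hs
    exact hs
  right
  have hK := S.N_nil
  have hnh : ball (0 : ℂ) S.r ∈ 𝓝 (0 : ℂ) := isOpen_ball.mem_nhds S.mem0
  have hbd : DifferentiableOn ℂ b (ball 0 S.r) :=
    fun u hu => (hb u hu).differentiableAt.differentiableWithinAt
  have hΦd : DifferentiableOn ℂ S.Φ (ball 0 S.r) :=
    fun u hu => (S.hΦ u hu).differentiableAt.differentiableWithinAt
  have hΦa : AnalyticAt ℂ S.Φ 0 := hΦd.analyticAt hnh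
  have hΨa : AnalyticAt ℂ S.Ψ 0 := S.hΨ.analyticAt hnh
  have hhor0 : Off S.P₁ (S.Ψ 0 (w + S.N (b 0))) := by
    have := hhor 0 S.mem0
    simpa using this
  obtain ⟨h, hh, hwN, hbh⟩ := S.exists_h hw hhor0
    (fun y hy => S.split_orbit (hb 0 S.mem0).differentiableAt hw hs hy)
  have hform : ∀ z : ℂ, ∀ v : κ → ℂ, tz S.N S.K z w + ex S.N z v - h = ex S.N z (v - h) := by
    intro z v
    rw [hwN, map_neg, tz_mul_apply hK, map_sub]
    abel
  set a : ℂ → κ → ℂ := fun q => S.Ψ q (b q - h) with hadef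
  have hinv : ∀ q ∈ ball (0 : ℂ) S.r, b q - h = S.Φ q (a q) := fun q hq => (S.inv1 q hq _).symm
  have had : DifferentiableOn ℂ a (ball 0 S.r) := S.hΨ.clm_apply (hbd.sub_const h)
  have hcad : DifferentiableOn ℂ (fun u => cut S.P₀ (a u)) (ball 0 S.r) :=
    (cut S.P₀).differentiable.comp_differentiableOn had
  have hcaa : AnalyticAt ℂ (fun u => cut S.P₀ (a u)) 0 := hcad.analyticAt hnh
  by_cases hz : ∀ᶠ u in 𝓝 (0 : ℂ), cut S.P₀ (a u) = 0
  · obtain ⟨δ, hδ, hδ2⟩ := Metric.eventually_nhds_iff_ball.mp hz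
    obtain ⟨y₁, -, hy₁⟩ := exists_exp_le hδ 0
    refine ⟨y₁, h, hh, fun z hz => ?_⟩
    rw [hform, ex_neg_apply]
    exact off_iff_cut.mpr (hδ2 _ (norm_qq_lt hy₁ hz))
  exfalso
  obtain ⟨m, α, hα, hα0, hev⟩ := hcaa.exists_eventuallyEq_pow_smul_nonzero_iff.mpr hz
  simp only [sub_zero] at hev
  have hm : m ≠ 0 := by
    rintro rfl
    have := hev.self_of_nhds
    have ha0 : cut S.P₀ (a 0) = 0 := off_iff_cut.mp hbh
    rw [ha0, pow_zero, one_smul] at this
    exact hα0 this.symm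
  have hαP : ∀ i, S.P₀ i → α 0 i = 0 := by
    intro i hi
    have e1 : ∀ᶠ u in 𝓝[≠] (0 : ℂ), α u i = 0 := by
      filter_upwards [nhdsWithin_le_nhds hev, self_mem_nhdsWithin] with u hu hu0
      have e2 := congrFun hu i
      rw [cut_apply_of _ hi, Pi.smul_apply, smul_eq_mul] at e2
      exact (mul_eq_zero.mp e2.symm).resolve_left (pow_ne_zero m hu0)
    have e3 : Tendsto (fun u => α u i) (𝓝[≠] 0) (𝓝 (α 0 i)) :=
      ((tendsto_pi_nhds.mp hα.continuousAt.tendsto) i).mono_left nhdsWithin_le_nhds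
    exact tendsto_nhds_unique e3 (Tendsto.congr' (e1.mono fun u hu => hu.symm) tendsto_const_nhds)
  -- the leading coefficient
  have hlead : ∀ i, ¬ S.P₁ i → 2 * Real.pi * Complex.I * m * α 0 i
      = -(S.Ψ 0 (S.N (S.Φ 0 (α 0)))) i := by
    intro i hi
    have hi0 : ¬ S.P₀ i := fun h' => hi (S.h01 i h')
    have hev2 : ∀ᶠ u in 𝓝 (0 : ℂ), ∀ᶠ w in 𝓝 u, cut S.P₀ (a w) = w ^ m • α w :=
      eventually_eventually_nhds.mpr hev
    have hΩ : ContinuousAt (fun u => S.Ψ u * (S.N * S.Φ u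
        + (2 * Real.pi * Complex.I * u) • deriv S.Φ u)) 0 := by
      refine hΨa.continuousAt.mul ?_
      refine (continuousAt_const.mul hΦa.continuousAt).add ?_
      refine ContinuousAt.smul (continuous_const.mul continuous_id).continuousAt ?_
      exact hΦa.deriv.continuousAt
    have key := leading hΩ hα m (i := i) ?_
    · rw [key]
      simp
    · filter_upwards [nhdsWithin_le_nhds hev2, nhdsWithin_le_nhds hnh] with u hu hub
      have e1 : deriv (fun w => w ^ m * α w i) u = deriv (fun w => a w i) u := by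
        apply Filter.EventuallyEq.deriv_eq
        filter_upwards [hu] with w hw
        have := congrFun hw i
        rw [cut_apply_of_not _ hi0] at this
        rw [this]
        rfl
      have hau : DifferentiableAt ℂ a u := had.differentiableAt (isOpen_ball.mem_nhds hub)
      have e2 : b' u = S.Φ' u (a u) + S.Φ u (deriv a u) := by
        have d1 := (S.hΦ u hub).clm_apply hau.hasDerivAt
        have d2 : HasDerivAt (fun w => S.Φ w (a w)) (b' u) u := by
          have d3 : HasDerivAt (fun w => b w - h) (b' u) u := (hb u hub).sub_const h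
          refine d3.congr_of_eventuallyEq ?_
          filter_upwards [isOpen_ball.mem_nhds hub] with w hw
          exact (hinv w hw).symm
        exact d2.unique d1
      have e3 : deriv a u = S.Ψ u (b' u) - S.Ψ u (S.Φ' u (a u)) := by
        rw [← map_sub, e2, add_sub_cancel_left, S.inv2 u hub]
      have e4 : deriv (fun w => a w i) u = deriv a u i := by
        exact ((hasDerivAt_pi.mp hau.hasDerivAt) i).deriv
      have e5 := hhor u hub i hi
      have e6 : w + S.N (b u) = S.N (S.Φ u (a u)) := by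
        rw [← hinv u hub, hwN, map_sub]
        abel
      rw [e6, map_add, map_smul, Pi.add_apply, Pi.smul_apply, smul_eq_mul] at e5
      have e7 := S.htr u hub _ (off_sub_cut (P := S.P₀) (a u)) i hi
      rw [map_sub, map_sub, map_sub, map_add, map_sub, map_smul, map_sub] at e7
      simp only [Pi.add_apply, Pi.sub_apply, Pi.smul_apply, smul_eq_mul] at e7
      rw [e1, e4, e3, Pi.sub_apply, (S.hΦ u hub).deriv, ← hu.self_of_nhds]
      simp only [ContinuousLinearMap.mul_apply, _root_.add_apply, _root_.smul_apply,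
        map_add, map_smul, Pi.add_apply, Pi.smul_apply, smul_eq_mul]
      linear_combination e5 - e7
  -- splitting of the leading term
  have hF : DifferentiableAt ℂ (fun q => S.Φ q (α q)) 0 :=
    hΦa.differentiableAt.clm_apply hα.differentiableAt
  set V : ℝ → ℂ → κ → ℂ := fun y q => ex S.N (y * Complex.I) (S.Φ q (α q)) with hV
  set B := fun (y : ℝ) (q : ℂ) => Bmat (ex S.N (y * Complex.I) * S.Φ q) S.P₀ with hB
  have hBt : ∀ i s, Tame (fun y q => B y q i s) := fun i s =>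
    tame_Bmat hK hΦa.differentiableAt S.P₀ i s
  have hVt : ∀ i, Tame (fun y q => V y q i) := fun i => tame_ex hK hF i
  have hVct : ∀ i, Tame (fun y q => cj (V y q) i) := fun i => (hVt i).conj
  have hAt : ∀ i, Tame (fun y q => resid (B y q) (V y q) i) := fun i => tame_resid hBt hVt i
  have hAt' : ∀ i, Tame (fun y q => resid (B y q) (cj (V y q)) i) := fun i =>
    tame_resid hBt hVct i
  have hzero : ∀ i j, ∀ y : ℝ,
      resid (B y 0) (V y 0) i * conj (resid (B y 0) (V y 0) j)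
        - resid (B y 0) (cj (V y 0)) i * conj (resid (B y 0) (cj (V y 0)) j) = 0 := by
    intro i j
    have hT := ((hAt i).mul (hAt j).conj).sub ((hAt' i).mul (hAt' j).conj)
    refine hT.eq_zero fun y₁ => ?_
    obtain ⟨δ, hδ, hδ2⟩ := Metric.eventually_nhds_iff_ball.mp (hev.and hnh)
    obtain ⟨c', hc1, hc2⟩ := exists_exp_le hδ y₁
    obtain ⟨z, hz, hsz⟩ := hs c'
    have hqz := hδ2 _ (norm_qq_lt hc2 hz)
    refine ⟨z.im, lt_of_le_of_lt hc1 hz, qq z, norm_qq z, ?_⟩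
    set q := qq z with hq
    have e1 : SplitAt (ex S.N z * S.Φ q) S.P₀ ((ex S.N z * S.Φ q) (cut S.P₀ (a q))) := by
      apply hsz.cut hh
      rw [hform, hinv q hqz.2]
      rfl
    rw [hqz.1, ContinuousLinearMap.mul_apply] at e1
    have hzri : z = (z.re : ℂ) + (z.im : ℂ) * Complex.I := (Complex.re_add_im z).symm
    have e2 : SplitAt (ex S.N (z.im * Complex.I) * S.Φ q) S.P₀
        (ex S.N (z.im * Complex.I) (S.Φ q (q ^ m • α q))) := by
      rw [← split_translate' (K := S.K) S.N_re hK (S.Φ q) S.P₀ (S.Φ q (q ^ m • α q)) z.re, ← hzri]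
      exact e1
    rw [map_smul, map_smul] at e2
    have e3 := e2.smul_real (t := (((‖q‖ ^ m)⁻¹ : ℝ) : ℂ)) (Complex.ofReal_im _)
    rw [smul_smul] at e3
    set θ : ℂ := (((‖q‖ ^ m)⁻¹ : ℝ) : ℂ) * q ^ m with hθ
    have hθ1 : θ * conj θ = 1 := by
      have hq0 : ‖q‖ ≠ 0 := norm_ne_zero_iff.mpr (qq_ne_zero z)
      rw [Complex.mul_conj, Complex.normSq_eq_norm_sq, hθ, norm_mul, Complex.norm_real, norm_inv,
        norm_pow, norm_norm, norm_pow, inv_mul_cancel₀ (pow_ne_zero m hq0)]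
      norm_num
    clear_value θ
    have e4 := resid_of_split e3
    rw [resid_sub, cj_smul, resid_smul, resid_smul, sub_eq_zero] at e4
    have e5 : ∀ k, θ * resid (B z.im q) (V z.im q) k
        = conj θ * resid (B z.im q) (cj (V z.im q)) k := fun k => congrFun e4 k
    have e6 := congrArg conj (e5 j)
    rw [map_mul, map_mul, Complex.conj_conj] at e6
    have e7 := e5 i
    set A := resid (B z.im q) (V z.im q)
    set A' := resid (B z.im q) (cj (V z.im q))
    have e8 : (θ * A i) * (conj θ * conj (A j)) = (conj θ * A' i) * (θ * conj (A' j)) := by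
      rw [e6, e7]
    have e9 : A i * conj (A j) = A' i * conj (A' j) := by
      calc A i * conj (A j) = (θ * conj θ) * (A i * conj (A j)) := by rw [hθ1, one_mul]
        _ = (θ * A i) * (conj θ * conj (A j)) := by ring
        _ = (conj θ * A' i) * (θ * conj (A' j)) := e8
        _ = (θ * conj θ) * (A' i * conj (A' j)) := by ring
        _ = A' i * conj (A' j) := by rw [hθ1, one_mul]
    rw [e9, sub_self]
  have hoff : Off (fun j => S.P₀ j) (α 0) := by
    refine S.leading_eq_zero hm hlead fun y hy => ?_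
    obtain ⟨θ, hθ1, hθ2⟩ := exists_unit (A := resid (B y 0) (V y 0))
      (A' := resid (B y 0) (cj (V y 0))) (fun i j => sub_eq_zero.mp (hzero i j y))
    refine ⟨θ, hθ1, ?_⟩
    apply split_of_resid
    · exact S.pos_im0 (by simpa using hy)
    · rw [resid_sub, cj_smul, resid_smul, resid_smul]
      exact sub_eq_zero.mpr hθ2
  exact hα0 (eq_zero_of_off_or hoff hαP)

end Pool.Agent.Y92.GS
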