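import Pool.Agent.Y92.GS.Crit

/-!
# Preparations for the theorem at the cusp
-/

namespace Pool.Agent.Y92.GS

open Pool.Agent.Y92.RS Filter Asymptotics Finset Metric Matrix
open scoped Topology ComplexConjugate Nat

variable {κ : Type*} [Fintype κ] [DecidableEq κ]

/-- the coordinates of `ℂ ^ κ` -/
noncomputable def xc (κ : Type*) : κ → (κ → ℂ) →L[ℂ] ℂ :=
  fun k => ContinuousLinearMap.proj k

variable {N : (κ → ℂ) →L[ℂ] (κ → ℂ)} {K : ℕ}

omit [DecidableEq κ] in
theorem ex_isR (hN : ∀ v, IsR v → IsR (N v)) (hK : N ^ K = 0) (t : ℝ) {v : κ → ℂ} (hv : IsR v) :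
    IsR (ex N t v) :=
  ex_re (x := xc κ) hN hK t hv

omit [DecidableEq κ] in
theorem tz_isR (hN : ∀ v, IsR v → IsR (N v)) (t : ℝ) {v : κ → ℂ} (hv : IsR v) :
    IsR (tz N K t v) :=
  tz_re (x := xc κ) hN t hv

omit [DecidableEq κ] in
theorem isR_of_ex (hN : ∀ v, IsR v → IsR (N v)) (hK : N ^ K = 0) (t : ℝ) {v : κ → ℂ}
    (hv : IsR (ex N t v)) : IsR v := by
  have := ex_isR hN hK (-t) hv
  rw [Complex.ofReal_neg, ex_neg_apply] at this
  exact this

omit [DecidableEq κ] in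
/-- translation of the split condition for the extension with `ν = tz w + exp (zN) b` -/
theorem split_translate (hN : ∀ v, IsR v → IsR (N v)) (hK : N ^ K = 0) {w : κ → ℂ} (hw : IsR w)
    (Φ : (κ → ℂ) →L[ℂ] (κ → ℂ)) (P : κ → Prop) (b : κ → ℂ) (s : ℝ) (z : ℂ) :
    SplitAt (ex N (s + z) * Φ) P (tz N K (s + z) w + ex N (s + z) b) ↔
      SplitAt (ex N z * Φ) P (tz N K z w + ex N z b) := by
  have key : ∀ c, tz N K (s + z) w + ex N (s + z) b - (ex N (s + z) * Φ) c
      = tz N K s w + ex N s (tz N K z w + ex N z b - (ex N z * Φ) c) := by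
    intro c
    rw [tz_add_apply hK, ex_add]
    simp only [ContinuousLinearMap.mul_apply, map_add, map_sub]
    abel
  have hwr : IsR (tz N K (s : ℂ) w) := tz_isR hN s hw
  constructor
  · rintro ⟨c, hc, hr⟩
    refine ⟨c, hc, ?_⟩
    rw [key] at hr
    apply isR_of_ex hN hK s
    have := hr.sub hwr
    rwa [add_sub_cancel_left] at this
  · rintro ⟨c, hc, hr⟩
    refine ⟨c, hc, ?_⟩
    rw [key]
    exact hwr.add (ex_isR hN hK s hr)

omit [DecidableEq κ] in
theorem split_translate' (hN : ∀ v, IsR v → IsR (N v)) (hK : N ^ K = 0)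
    (Φ : (κ → ℂ) →L[ℂ] (κ → ℂ)) (P : κ → Prop) (b : κ → ℂ) (s : ℝ) (z : ℂ) :
    SplitAt (ex N (s + z) * Φ) P (ex N (s + z) b) ↔ SplitAt (ex N z * Φ) P (ex N z b) := by
  have h0 : IsR (0 : κ → ℂ) := fun i => by simp
  have := split_translate (K := K) hN hK h0 Φ P b s z
  simpa using this

omit [DecidableEq κ] in
/-- `exp (iyN) F(q)` is tame -/
theorem tame_ex (hK : N ^ K = 0) {F : ℂ → κ → ℂ} (hF : DifferentiableAt ℂ F 0) (i : κ) :
    Tame (fun y q => ex N (y * Complex.I) (F q) i) := by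
  simp only [ex_eq_sum hK, _root_.sum_apply, _root_.smul_apply, Finset.sum_apply, Pi.smul_apply,
    smul_eq_mul]
  refine Tame.sum _ fun j _ => ?_
  refine ((Tame.const _).mul ((Tame.id'.mul (Tame.const _)).pow j)).mul ?_
  have h1 : DifferentiableAt ℂ (fun q => (N ^ j) (F q)) 0 :=
    (N ^ j).differentiableAt.comp 0 hF
  exact Tame.of_holo (differentiableAt_pi.mp h1 i)

omit [DecidableEq κ] in
theorem tame_tz (w : κ → ℂ) (i : κ) :
    Tame (fun y _ => tz N K (y * Complex.I) w i) := by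
  simp only [tz, _root_.sum_apply, _root_.smul_apply, Finset.sum_apply, Pi.smul_apply,
    smul_eq_mul]
  refine Tame.sum _ fun j _ => ?_
  exact ((Tame.const _).mul ((Tame.id'.mul (Tame.const _)).pow (j + 1))).mul (Tame.const _)

theorem tame_Bmat (hK : N ^ K = 0) {Φ : ℂ → (κ → ℂ) →L[ℂ] (κ → ℂ)}
    (hΦ : DifferentiableAt ℂ Φ 0) (P : κ → Prop) (i : κ) (s : {j // P j} ⊕ {j // P j}) :
    Tame (fun y q => Bmat (ex N (y * Complex.I) * Φ q) P i s) := by
  have h : ∀ j, Tame (fun y q => ex N (y * Complex.I) (Φ q (Pi.single j 1)) i) := fun j =>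
    tame_ex hK (hΦ.clm_apply (differentiableAt_const _)) i
  rcases s with s | s
  · simpa [Bmat] using h s.1
  · simpa [Bmat] using (h s.1).conj

/-- an entire function vanishing near a point vanishes identically -/
theorem entire_zero {f : ℂ → ℂ} (hf : Differentiable ℂ f) {z₀ : ℂ} {ε : ℝ} (hε : 0 < ε)
    (h : ∀ u : ℂ, ‖u‖ < ε → f (z₀ + u) = 0) (z : ℂ) : f z = 0 := by
  have h1 : AnalyticOnNhd ℂ f Set.univ :=
    (differentiableOn_univ.mpr hf).analyticOnNhd isOpen_univ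
  have h2 : f =ᶠ[𝓝 z₀] 0 := by
    filter_upwards [ball_mem_nhds z₀ hε] with u hu
    have := h (u - z₀) (by rwa [mem_ball_iff_norm] at hu)
    rwa [add_sub_cancel] at this
  have h3 := h1.eqOn_zero_of_preconnected_of_eventuallyEq_zero isPreconnected_univ
    (Set.mem_univ z₀) h2
  exact h3 (Set.mem_univ z)

end Pool.Agent.Y92.GS
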