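import Mathlib

/-!
# Extensions of `ℚ(0)` by mixed Hodge structures of weights at most `-3`: definitions

Let `X` be a compact Riemann surface, `D ⊂ X` the set of punctures and `V` an admissible
variation of mixed Hodge structure over `X ∖ D` with

  `0 → H → V → ℚ(0) → 0`,   `H = W₋₃ V`,

that is, `Gr^W_0 V = ℚ(0)` and `Gr^W_{-1} V = Gr^W_{-2} V = 0`.  We describe `V` by its local
period data.  In a rational basis of `H` (of rank `n`) the weight filtration is constant, and
the Hodge filtration is given by a holomorphic frame of `ℂⁿ` adapted to it: the `j`-th vector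
has level `lev j`, and `F^p` is spanned by the vectors of level at least `p`.  The extension is
given by a vector `ν ∈ ℂⁿ`, well defined up to `F⁰` and rational vectors.
-/

namespace Pool.Agent.Y92.Gap

open Metric

/-! ### Mixed Hodge structures on `ℚⁿ` -/

/-- the complexification in `ℂⁿ` of a rational subspace of `ℚⁿ` -/
def cplx {n : ℕ} (W : Submodule ℚ (Fin n → ℚ)) : Submodule ℂ (Fin n → ℂ) :=
  Submodule.span ℂ {v | ∃ w ∈ W, v = fun i => ((w i : ℚ) : ℂ)}

/-- the complex conjugate of a subspace of `ℂⁿ` -/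
def conjSub {n : ℕ} (F : Submodule ℂ (Fin n → ℂ)) : Submodule ℂ (Fin n → ℂ) :=
  Submodule.span ℂ {v | (fun i => starRingEnd ℂ (v i)) ∈ F}

/-- `(W, F)` is a mixed Hodge structure on `ℚⁿ`: the filtration `W` is increasing, exhaustive and
separated, `F` is decreasing, and `F` induces on `Gr^W_k` a Hodge structure of weight `k`, that is
`Gr^W_k = F^p Gr^W_k ⊕ conj (F^{k+1-p} Gr^W_k)` for all `k` and `p`. -/
structure IsMHS {n : ℕ} (W : ℤ → Submodule ℚ (Fin n → ℚ)) (F : ℤ → Submodule ℂ (Fin n → ℂ)) :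
    Prop where
  W_mono : Monotone W
  W_bot : ∃ k, W k = ⊥
  W_top : ∃ k, W k = ⊤
  F_anti : Antitone F
  sum : ∀ k p, cplx (W k) ≤
    (cplx (W k) ⊓ F p) ⊔ (cplx (W k) ⊓ conjSub (F (k + 1 - p))) ⊔ cplx (W (k - 1))
  inter : ∀ k p, ((cplx (W k) ⊓ F p) ⊔ cplx (W (k - 1))) ⊓
    ((cplx (W k) ⊓ conjSub (F (k + 1 - p))) ⊔ cplx (W (k - 1))) ≤ cplx (W (k - 1))

/-- the filtration with `F^p` spanned by the vectors `φ j` of level at least `p` -/
def fil {n : ℕ} (lev : Fin n → ℤ) (φ : Fin n → Fin n → ℂ) (p : ℤ) : Submodule ℂ (Fin n → ℂ) :=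
  Submodule.span ℂ {v | ∃ j, p ≤ lev j ∧ v = φ j}

/-! ### Local period data -/

/-- Period data of `V` over a small disc in the base. -/
structure DiscChart (n : ℕ) (lev : Fin n → ℤ) where
  /-- the radius of the disc -/
  r : ℝ
  r_pos : 0 < r
  /-- the weight filtration of `H` -/
  W : ℤ → Submodule ℚ (Fin n → ℚ)
  weights : W (-3) = ⊤
  /-- the frame adapted to the Hodge filtration of `H` -/
  frame : ℂ → Fin n → Fin n → ℂ
  frame_holo : ∀ j, DifferentiableOn ℂ (fun u => frame u j) (ball 0 r)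
  frame_indep : ∀ u ∈ ball (0 : ℂ) r, LinearIndependent ℂ (frame u)
  mhs : ∀ u ∈ ball (0 : ℂ) r, IsMHS W (fil lev (frame u))
  /-- Griffiths transversality for `H` -/
  transversal : ∀ u ∈ ball (0 : ℂ) r, ∀ j,
    deriv (fun u => frame u j) u ∈ fil lev (frame u) (lev j - 1)
  /-- the extension class -/
  ν : ℂ → Fin n → ℂ
  ν_holo : DifferentiableOn ℂ ν (ball 0 r)
  /-- Griffiths transversality for `V` -/
  horizontal : ∀ u ∈ ball (0 : ℂ) r, deriv ν u ∈ fil lev (frame u) (-1)

/-- `q = exp (2 π i z)` -/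
noncomputable def qexp (z : ℂ) : ℂ := Complex.exp (2 * Real.pi * Complex.I * z)

/-- `exp (z N) v` for a nilpotent rational matrix `N` -/
noncomputable def expN {n : ℕ} (N : Matrix (Fin n) (Fin n) ℚ) (z : ℂ) (v : Fin n → ℂ) :
    Fin n → ℂ :=
  ∑ k ∈ Finset.range n, (z ^ k / (k.factorial : ℂ)) •
    ((N.map (fun t : ℚ => (t : ℂ))) ^ k).mulVec v

/-- Period data of `V` near a puncture.  The local parameter of the base is `s ^ e` with
`s = exp (2 π i z)`, `z` in a half plane, where `e` is chosen such that the monodromy around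
`s = 0` is unipotent.  The Hodge filtration of `H` is `exp (z N)` applied to a filtration with a
frame holomorphic in `s` including `s = 0`; its value at `s = 0` is the limit filtration, and the
nilpotent orbit `exp (z N) F_lim` is a mixed Hodge structure for `Im z` large.  The derivative of
the extension class is `exp (z N)` applied to a vector holomorphic at `s = 0`
(admissibility of `V`), and `z ↦ z + 1` acts on the class by `exp N` and a rational
translation. -/
structure CuspChart (n : ℕ) (lev : Fin n → ℤ) where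
  /-- ramification index -/
  e : ℕ
  e_pos : 0 < e
  /-- the radius of the disc of the variable `s` -/
  r : ℝ
  r_pos : 0 < r
  /-- the weight filtration of `H` -/
  W : ℤ → Submodule ℚ (Fin n → ℚ)
  weights : W (-3) = ⊤
  /-- logarithm of the monodromy of `H` -/
  N : Matrix (Fin n) (Fin n) ℚ
  nilpotent : N ^ n = 0
  /-- the frame -/
  frame : ℂ → Fin n → Fin n → ℂ
  frame_holo : ∀ j, DifferentiableOn ℂ (fun s => frame s j) (ball 0 r)
  frame_indep : ∀ s ∈ ball (0 : ℂ) r, LinearIndependent ℂ (frame s)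
  mhs : ∀ z, qexp z ∈ ball (0 : ℂ) r → IsMHS W (fil lev fun j => expN N z (frame (qexp z) j))
  limit : ∃ c : ℝ, ∀ z : ℂ, c < z.im → IsMHS W (fil lev fun j => expN N z (frame 0 j))
  /-- Griffiths transversality for `H` -/
  transversal : ∀ z, qexp z ∈ ball (0 : ℂ) r → ∀ j,
    deriv (fun z => expN N z (frame (qexp z) j)) z ∈
      fil lev (fun j => expN N z (frame (qexp z) j)) (lev j - 1)
  /-- the extension class -/
  ν : ℂ → Fin n → ℂ
  /-- the coefficients of the derivative of the class -/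
  coef : ℂ → Fin n → ℂ
  coef_holo : DifferentiableOn ℂ coef (ball 0 r)
  /-- Griffiths transversality for `V` -/
  coef_zero : ∀ s ∈ ball (0 : ℂ) r, ∀ j, lev j < -1 → coef s j = 0
  deriv_ν : ∀ z, qexp z ∈ ball (0 : ℂ) r →
    HasDerivAt ν (∑ j, coef (qexp z) j • expN N z (frame (qexp z) j)) z
  monodromy : ∀ z, qexp z ∈ ball (0 : ℂ) r → ∃ w : Fin n → ℚ,
    ν (z + 1) = expN N 1 (ν z) + fun i => ((w i : ℚ) : ℂ)

/-! ### The variation -/

/-- the point with local parameter `u` in the preferred chart centred at `p` -/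
noncomputable def point {X : Type*} [TopologicalSpace X] [ChartedSpace ℂ X] (p : X) (u : ℂ) : X :=
  (chartAt ℂ p).symm (chartAt ℂ p p + u)

/-- `(F, ν)` is the value at `x` of one branch of the period map. -/
def HasPeriod {n : ℕ} {lev : Fin n → ℤ} {X : Type*} [TopologicalSpace X] [ChartedSpace ℂ X]
    (D : Set X) (disc : X → DiscChart n lev) (cusp : X → CuspChart n lev) (x : X)
    (F : ℤ → Submodule ℂ (Fin n → ℂ)) (ν : Fin n → ℂ) : Prop :=
  (∃ p ∉ D, ∃ u ∈ ball (0 : ℂ) (disc p).r,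
    point p u = x ∧ fil lev ((disc p).frame u) = F ∧ (disc p).ν u = ν) ∨
  (∃ p ∈ D, ∃ z : ℂ, qexp z ∈ ball (0 : ℂ) (cusp p).r ∧ point p ((qexp z) ^ (cusp p).e) = x ∧
    (fil lev fun j => expN (cusp p).N z ((cusp p).frame (qexp z) j)) = F ∧ (cusp p).ν z = ν)

/-- `(F, ν)` and `(F', ν')` differ by a change of the rational basis of `H` and of the lift of
the class: there is `γ ∈ GL_n(ℚ)` with `γ F^p = F'^p` for all `p` and
`ν' - γ ν - w ∈ F'^0` for a rational vector `w`. -/
def Related {n : ℕ} (F : ℤ → Submodule ℂ (Fin n → ℂ)) (ν : Fin n → ℂ)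
    (F' : ℤ → Submodule ℂ (Fin n → ℂ)) (ν' : Fin n → ℂ) : Prop :=
  ∃ γ : Matrix (Fin n) (Fin n) ℚ, γ.det ≠ 0 ∧
    (∀ p, (F p).map (γ.map (fun t : ℚ => (t : ℂ))).mulVecLin = F' p) ∧
    ∃ w : Fin n → ℚ, (ν' - (γ.map (fun t : ℚ => (t : ℂ))).mulVec ν
      - fun i => ((w i : ℚ) : ℂ)) ∈ F' 0

/-- An admissible variation `V` over `X ∖ D` with `Gr^W_0 V = ℚ(0)`, `W_{-1} V = W_{-3} V = H` and
`H` of rank `n`, given by its local period data. -/
structure Variation (n : ℕ) (lev : Fin n → ℤ) (X : Type*) [TopologicalSpace X]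
    [ChartedSpace ℂ X] (D : Set X) where
  /-- period data at the points of `X ∖ D` -/
  disc : X → DiscChart n lev
  /-- period data at the punctures -/
  cusp : X → CuspChart n lev
  disc_dom : ∀ p ∉ D, ∀ u ∈ ball (0 : ℂ) (disc p).r,
    chartAt ℂ p p + u ∈ (chartAt ℂ p).target ∧ point p u ∉ D
  cusp_dom : ∀ p ∈ D, ∀ s ∈ ball (0 : ℂ) (cusp p).r,
    chartAt ℂ p p + s ^ (cusp p).e ∈ (chartAt ℂ p).target ∧
      (s ≠ 0 → point p (s ^ (cusp p).e) ∉ D)
  compat : ∀ x F ν F' ν', HasPeriod D disc cusp x F ν → HasPeriod D disc cusp x F' ν' →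
    Related F ν F' ν'

/-- For a subfield `K` of `ℝ`, the set of the points `x` of `X ∖ D` such that the extension
`0 → H_x → V_x → ℚ(0) → 0` of mixed Hodge structures splits over `K`: the class `ν` is the sum of a
vector with coordinates in `K` and a vector in `F⁰`. -/
def Variation.splitLocus {n : ℕ} {lev : Fin n → ℤ} {X : Type*} [TopologicalSpace X]
    [ChartedSpace ℂ X] {D : Set X} (V : Variation n lev X D) (K : Subfield ℝ) : Set X :=
  {x | x ∉ D ∧ ∃ F ν, HasPeriod D V.disc V.cusp x F ν ∧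
    ∃ h : Fin n → ℝ, (∀ i, h i ∈ K) ∧ (ν - fun i => ((h i : ℝ) : ℂ)) ∈ F 0}

end Pool.Agent.Y92.Gap
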