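import Pool.Agent.Y92.GS.Defs
import Pool.Agent.Y92.GS.CuspG

/-!
# Frames, filtrations and positivity
-/

namespace Pool.Agent.Y92.GS

open Pool.Agent.Y92.RS Pool.Agent.Y92.Gap Filter Asymptotics Finset Metric Matrix
open scoped Topology ComplexConjugate Nat

variable {n : ℕ}

/-- the operator `c ↦ Σ c_j φ_j` -/
noncomputable def mk (f : Fin n → Fin n → ℂ) : (Fin n → ℂ) →L[ℂ] (Fin n → ℂ) :=
  ∑ j, (ContinuousLinearMap.proj j).smulRight (f j)

theorem mk_apply (f : Fin n → Fin n → ℂ) (c : Fin n → ℂ) : mk f c = ∑ j, c j • f j := by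
  simp [mk]

theorem mk_single (f : Fin n → Fin n → ℂ) (j : Fin n) : mk f (Pi.single j 1) = f j := by
  rw [mk_apply, Finset.sum_eq_single j]
  · simp
  · intro b _ hb
    rw [Pi.single_eq_of_ne hb, zero_smul]
  · intro h
    exact absurd (Finset.mem_univ j) h

theorem mk_inj {f : Fin n → Fin n → ℂ} (hf : LinearIndependent ℂ f) :
    Function.Injective (mk f) := by
  rw [injective_iff_map_eq_zero]
  intro c hc
  rw [mk_apply] at hc
  exact funext (Fintype.linearIndependent_iff.mp hf c hc)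

/-- the frame as a continuous linear equivalence -/
theorem exists_equiv {f : Fin n → Fin n → ℂ} (hf : LinearIndependent ℂ f) :
    ∃ e : (Fin n → ℂ) ≃L[ℂ] (Fin n → ℂ), (e : (Fin n → ℂ) →L[ℂ] (Fin n → ℂ)) = mk f := by
  have h1 : Function.Injective ((mk f : (Fin n → ℂ) →L[ℂ] (Fin n → ℂ)) :
      (Fin n → ℂ) →ₗ[ℂ] (Fin n → ℂ)) := mk_inj hf
  refine ⟨(LinearEquiv.ofInjectiveEndo _ h1).toContinuousLinearEquiv, ?_⟩
  ext v i
  rfl

/-- the inverse of the frame -/
noncomputable def mkInv (f : Fin n → Fin n → ℂ) : (Fin n → ℂ) →L[ℂ] (Fin n → ℂ) :=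
  ContinuousLinearMap.inverse (mk f)

theorem mk_mkInv {f : Fin n → Fin n → ℂ} (hf : LinearIndependent ℂ f) (v : Fin n → ℂ) :
    mk f (mkInv f v) = v := by
  obtain ⟨e, he⟩ := exists_equiv hf
  unfold mkInv
  rw [← he, ContinuousLinearMap.inverse_equiv]
  simp

theorem mkInv_mk {f : Fin n → Fin n → ℂ} (hf : LinearIndependent ℂ f) (v : Fin n → ℂ) :
    mkInv f (mk f v) = v := by
  obtain ⟨e, he⟩ := exists_equiv hf
  unfold mkInv
  rw [← he, ContinuousLinearMap.inverse_equiv]
  simp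

theorem mem_fil_iff {lev : Fin n → ℤ} {f : Fin n → Fin n → ℂ} (hf : LinearIndependent ℂ f)
    (p : ℤ) (v : Fin n → ℂ) : v ∈ fil lev f p ↔ Off (fun j => p ≤ lev j) (mkInv f v) := by
  constructor
  · intro h
    unfold fil at h
    induction h using Submodule.span_induction with
    | mem x hx =>
      obtain ⟨j, hj, rfl⟩ := hx
      rw [← mk_single f j, mkInv_mk hf]
      intro i hi
      have : i ≠ j := fun h => hi (h ▸ hj)
      exact Pi.single_eq_of_ne this _
    | zero => intro i _; simp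
    | add x y _ _ hx hy => rw [map_add]; exact hx.add hy
    | smul a x _ hx => rw [map_smul]; exact hx.smul a
  · intro h
    rw [← mk_mkInv hf v, mk_apply]
    refine Submodule.sum_mem _ fun j _ => ?_
    by_cases hj : p ≤ lev j
    · exact Submodule.smul_mem _ _ (Submodule.subset_span ⟨j, hj, rfl⟩)
    · rw [h j hj, zero_smul]
      exact Submodule.zero_mem _

theorem mk_mem_fil {lev : Fin n → ℤ} {f : Fin n → Fin n → ℂ} {p : ℤ} {c : Fin n → ℂ}
    (hc : Off (fun j => p ≤ lev j) c) : mk f c ∈ fil lev f p := by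
  rw [mk_apply]
  refine Submodule.sum_mem _ fun j _ => ?_
  by_cases hj : p ≤ lev j
  · exact Submodule.smul_mem _ _ (Submodule.subset_span ⟨j, hj, rfl⟩)
  · rw [hc j hj, zero_smul]
    exact Submodule.zero_mem _

theorem fil_anti (lev : Fin n → ℤ) (f : Fin n → Fin n → ℂ) : Antitone (fil lev f) := by
  intro p q hpq
  apply Submodule.span_mono
  rintro v ⟨j, hj, rfl⟩
  exact ⟨j, hpq.trans hj, rfl⟩

/-- split vectors in terms of the filtration -/
theorem splitAt_iff {lev : Fin n → ℤ} {f : Fin n → Fin n → ℂ} (hf : LinearIndependent ℂ f)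
    {v : Fin n → ℂ} :
    SplitAt (mk f) (fun j => 0 ≤ lev j) v ↔
      ∃ h : Fin n → ℝ, (v - fun i => ((h i : ℝ) : ℂ)) ∈ fil lev f 0 := by
  constructor
  · rintro ⟨c, hc, hr⟩
    refine ⟨fun i => ((v - mk f c) i).re, ?_⟩
    have h1 : (fun i => ((((v - mk f c) i).re : ℝ) : ℂ)) = v - mk f c := by
      ext i
      apply Complex.ext
      · simp
      · rw [Complex.ofReal_im]; exact (hr i).symm
    rw [h1, sub_sub_cancel]
    exact mk_mem_fil hc
  · rintro ⟨h, hh⟩
    refine ⟨mkInv f (v - fun i => ((h i : ℝ) : ℂ)), (mem_fil_iff hf 0 _).mp hh, ?_⟩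
    rw [mk_mkInv hf, sub_sub_cancel]
    intro i
    exact Complex.ofReal_im _

theorem conj_mem_of_isR {F : Submodule ℂ (Fin n → ℂ)} {v : Fin n → ℂ} (hv : IsR v)
    (h : v ∈ F) : v ∈ conjSub F := by
  apply Submodule.subset_span
  change (fun i => starRingEnd ℂ (v i)) ∈ F
  have : (fun i => starRingEnd ℂ (v i)) = v := by
    ext i
    exact Complex.conj_eq_iff_im.mpr (hv i)
  rw [this]
  exact h

/-- **Positivity.**  In weights at most `-3`, there is no nonzero real vector in `F⁻¹`. -/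
theorem isMHS_pos {W : ℤ → Submodule ℚ (Fin n → ℚ)} {F : ℤ → Submodule ℂ (Fin n → ℂ)}
    (h : IsMHS W F) (hW : W (-3) = ⊤) {v : Fin n → ℂ} (hv : v ∈ F (-1)) (hr : IsR v) : v = 0 := by
  have hstep : ∀ k ≤ (-3 : ℤ), v ∈ cplx (W k) → v ∈ cplx (W (k - 1)) := by
    intro k hk hvk
    apply h.inter k (-1)
    refine ⟨Submodule.mem_sup_left ⟨hvk, hv⟩, Submodule.mem_sup_left ⟨hvk, ?_⟩⟩
    exact conj_mem_of_isR hr (h.F_anti (by omega) hv)
  have htop : v ∈ cplx (W (-3)) := by
    rw [hW]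
    unfold cplx
    have h1 : v = ∑ i, v i • (Pi.single i 1 : Fin n → ℂ) := by
      ext j
      simp [Finset.sum_apply, Pi.single_apply]
    rw [h1]
    refine Submodule.sum_mem _ fun i _ => Submodule.smul_mem _ _ (Submodule.subset_span ?_)
    refine ⟨Pi.single i 1, Submodule.mem_top, ?_⟩
    ext j
    by_cases hij : j = i
    · subst hij; simp
    · simp [Pi.single_eq_of_ne hij]
  have hall : ∀ m : ℕ, v ∈ cplx (W (-3 - m)) := by
    intro m
    induction m with
    | zero => simpa using htop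
    | succ m ih =>
      have := hstep (-3 - m) (by omega) ih
      convert this using 3
      push_cast
      ring
  obtain ⟨k, hk⟩ := h.W_bot
  have h2 : W (-3 - (k.natAbs : ℤ)) = ⊥ := by
    rw [eq_bot_iff, ← hk]
    apply h.W_mono
    omega
  have h3 := hall k.natAbs
  rw [h2] at h3
  unfold cplx at h3
  have h4 : {v : Fin n → ℂ | ∃ w ∈ (⊥ : Submodule ℚ (Fin n → ℚ)), v = fun i => ((w i : ℚ) : ℂ)}
      ⊆ {0} := by
    rintro x ⟨w, hw, rfl⟩
    rw [Submodule.mem_bot] at hw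
    rw [hw, Set.mem_singleton_iff]
    ext i
    simp
  have h5 := Submodule.span_mono h4 h3
  simpa using h5

theorem pos_of_mhs {W : ℤ → Submodule ℚ (Fin n → ℚ)} {lev : Fin n → ℤ}
    {f : Fin n → Fin n → ℂ} (h : IsMHS W (fil lev f)) (hW : W (-3) = ⊤)
    (hf : Function.Injective (mk f)) : Pos (mk f) (fun j => -1 ≤ lev j) := by
  intro c hc hr
  have h1 := isMHS_pos h hW (mk_mem_fil hc) hr
  exact hf (by rw [h1, map_zero])

/-! ### the operator attached to a rational matrix -/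

/-- the operator on `ℂⁿ` of a rational matrix -/
noncomputable def op (N : Matrix (Fin n) (Fin n) ℚ) : (Fin n → ℂ) →L[ℂ] (Fin n → ℂ) :=
  LinearMap.toContinuousLinearMap (N.map (fun t : ℚ => (t : ℂ))).mulVecLin

theorem op_apply (N : Matrix (Fin n) (Fin n) ℚ) (v : Fin n → ℂ) :
    op N v = (N.map (fun t : ℚ => (t : ℂ))) *ᵥ v := rfl

theorem op_pow_apply (N : Matrix (Fin n) (Fin n) ℚ) (k : ℕ) (v : Fin n → ℂ) :
    ((op N) ^ k) v = ((N.map (fun t : ℚ => (t : ℂ))) ^ k) *ᵥ v := by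
  induction k generalizing v with
  | zero => simp
  | succ k ih =>
    rw [pow_succ, pow_succ, ContinuousLinearMap.mul_apply, ih, op_apply, Matrix.mulVec_mulVec]

theorem map_pow_cast (N : Matrix (Fin n) (Fin n) ℚ) (k : ℕ) :
    (N.map (fun t : ℚ => (t : ℂ))) ^ k = (N ^ k).map (fun t : ℚ => (t : ℂ)) := by
  have h := map_pow (RingHom.mapMatrix (m := Fin n) (Rat.castHom ℂ)) N k
  exact h.symm

theorem op_nilpotent {N : Matrix (Fin n) (Fin n) ℚ} (hN : N ^ n = 0) : (op N) ^ n = 0 := by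
  ext v : 1
  rw [op_pow_apply, map_pow_cast, hN]
  ext i
  simp [Matrix.mulVec, dotProduct]

theorem op_real (N : Matrix (Fin n) (Fin n) ℚ) {v : Fin n → ℂ} (hv : IsR v) : IsR (op N v) := by
  intro i
  rw [op_apply]
  simp only [Matrix.mulVec, dotProduct, Matrix.map_apply, Complex.im_sum]
  refine Finset.sum_eq_zero fun j _ => ?_
  rw [Complex.mul_im, hv j]
  simp

theorem expN_eq {N : Matrix (Fin n) (Fin n) ℚ} (hN : N ^ n = 0) (z : ℂ) (v : Fin n → ℂ) :
    expN N z v = ex (op N) z v := by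
  rw [ex_eq_sum (op_nilpotent hN)]
  unfold expN
  simp only [_root_.sum_apply, _root_.smul_apply]
  refine Finset.sum_congr rfl fun k _ => ?_
  rw [op_pow_apply, div_eq_inv_mul]

theorem mk_exp {N : Matrix (Fin n) (Fin n) ℚ} (hN : N ^ n = 0) (z : ℂ) (f : Fin n → Fin n → ℂ) :
    mk (fun j => expN N z (f j)) = ex (op N) z * mk f := by
  ext v : 1
  rw [ContinuousLinearMap.mul_apply, mk_apply, mk_apply, map_sum]
  refine Finset.sum_congr rfl fun j _ => ?_
  rw [expN_eq hN, map_smul]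

theorem indep_exp {N : Matrix (Fin n) (Fin n) ℚ} (hN : N ^ n = 0) (z : ℂ)
    {f : Fin n → Fin n → ℂ} (hf : LinearIndependent ℂ f) :
    LinearIndependent ℂ (fun j => expN N z (f j)) := by
  have h1 : Function.Injective (ex (op N) z) := by
    intro a b hab
    have := congrArg (ex (op N) (-z)) hab
    rwa [ex_neg_apply, ex_neg_apply] at this
  have h2 := hf.map' (ex (op N) z : (Fin n → ℂ) →ₗ[ℂ] (Fin n → ℂ)) (LinearMap.ker_eq_bot.mpr h1)
  have h3 : (fun j => expN N z (f j)) = (ex (op N) z : (Fin n → ℂ) →ₗ[ℂ] (Fin n → ℂ)) ∘ f := by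
    ext1 j
    exact expN_eq hN z (f j)
  rw [h3]
  exact h2

theorem mkInv_exp {N : Matrix (Fin n) (Fin n) ℚ} (hN : N ^ n = 0) (z : ℂ)
    {f : Fin n → Fin n → ℂ} (hf : LinearIndependent ℂ f) (v : Fin n → ℂ) :
    mkInv (fun j => expN N z (f j)) v = mkInv f (ex (op N) (-z) v) := by
  apply mk_inj (indep_exp hN z hf)
  rw [mk_mkInv (indep_exp hN z hf), mk_exp hN, ContinuousLinearMap.mul_apply, mk_mkInv hf,
    ex_apply_neg]

/-! ### Differentiability of the frame operators -/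

theorem hasDerivAt_mk {f : ℂ → Fin n → Fin n → ℂ} {u : ℂ}
    (hf : ∀ j, DifferentiableAt ℂ (fun u => f u j) u) :
    HasDerivAt (fun u => mk (f u)) (mk (fun j => deriv (fun u => f u j) u)) u := by
  unfold mk
  refine HasDerivAt.fun_sum fun j _ => ?_
  have h := (ContinuousLinearMap.smulRightL ℂ (Fin n → ℂ) (Fin n → ℂ)
    (ContinuousLinearMap.proj j)).hasFDerivAt.comp_hasDerivAt u (hf j).hasDerivAt
  exact h

theorem differentiableAt_mkInv {f : ℂ → Fin n → Fin n → ℂ} {u : ℂ}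
    (hf : ∀ j, DifferentiableAt ℂ (fun u => f u j) u) (hi : LinearIndependent ℂ (f u)) :
    DifferentiableAt ℂ (fun u => mkInv (f u)) u := by
  obtain ⟨e, he⟩ := exists_equiv hi
  have h1 : DifferentiableAt ℂ ContinuousLinearMap.inverse (mk (f u)) := by
    rw [← he]
    exact (contDiffAt_map_inverse (n := 1) e).differentiableAt one_ne_zero
  exact h1.comp u (hasDerivAt_mk hf).differentiableAt

end Pool.Agent.Y92.GS
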