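import Pool.Agent.Y92.GS.Local
import Pool.Agent.Y92.RS.Global

/-!
# The split locus over a punctured compact Riemann surface
-/

namespace Pool.Agent.Y92.GS

open Pool.Agent.Y92.RS Pool.Agent.Y92.Gap Filter Asymptotics Finset Metric Matrix
open scoped Topology ComplexConjugate Nat

variable {n : ℕ} {lev : Fin n → ℤ}

/-- splitting over `K` -/
def KSplit (K : Subfield ℝ) (F : ℤ → Submodule ℂ (Fin n → ℂ)) (ν : Fin n → ℂ) : Prop :=
  ∃ h : Fin n → ℝ, (∀ i, h i ∈ K) ∧ (ν - fun i => ((h i : ℝ) : ℂ)) ∈ F 0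

theorem KSplit.rsplit {K : Subfield ℝ} {F : ℤ → Submodule ℂ (Fin n → ℂ)} {ν : Fin n → ℂ}
    (h : KSplit K F ν) : RSplit F ν := by
  obtain ⟨h, -, h2⟩ := h
  exact ⟨h, h2⟩

theorem related_kSplit {K : Subfield ℝ} {F : ℤ → Submodule ℂ (Fin n → ℂ)} {ν : Fin n → ℂ}
    {F' : ℤ → Submodule ℂ (Fin n → ℂ)} {ν' : Fin n → ℂ} (hrel : Gap.Related F ν F' ν')
    (h : KSplit K F ν) : KSplit K F' ν' := by
  obtain ⟨γ, -, hγ, w, hw⟩ := hrel
  obtain ⟨h, hK, hh⟩ := h
  refine ⟨fun i => (∑ j, ((γ i j : ℚ) : ℝ) * h j) + ((w i : ℚ) : ℝ), fun i => ?_, ?_⟩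
  · refine K.add_mem (K.sum_mem fun j _ => K.mul_mem ?_ (hK j)) ?_
    · exact SubfieldClass.ratCast_mem K _
    · exact SubfieldClass.ratCast_mem K _
  · have h1 : (γ.map (fun t : ℚ => (t : ℂ))) *ᵥ (ν - fun i => ((h i : ℝ) : ℂ)) ∈ F' 0 := by
      rw [← hγ 0]
      exact Submodule.mem_map_of_mem hh
    have h2 := (F' 0).add_mem hw h1
    convert h2 using 1
    ext i
    simp only [Pi.sub_apply, Pi.add_apply, Matrix.mulVec_sub, Complex.ofReal_add,
      Complex.ofReal_sum, Complex.ofReal_mul, Complex.ofReal_ratCast]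
    have h3 : ((γ.map (fun t : ℚ => (t : ℂ))) *ᵥ fun i => ((h i : ℝ) : ℂ)) i
        = ∑ j, ((γ i j : ℚ) : ℂ) * ((h j : ℝ) : ℂ) := by
      simp [Matrix.mulVec, dotProduct]
    rw [h3]
    ring

/-- constancy of the splitting condition when the class is a constant real vector modulo `F⁰` -/
theorem kSplit_iff {K : Subfield ℝ} {W : ℤ → Submodule ℚ (Fin n → ℚ)}
    {F : ℤ → Submodule ℂ (Fin n → ℂ)} (hF : IsMHS W F) (hW : W (-3) = ⊤) {ν h : Fin n → ℂ}
    (hh : IsR h) (hν : ν - h ∈ F 0) : KSplit K F ν ↔ ∀ i, (h i).re ∈ K := by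
  have hre : h = fun i => (((h i).re : ℝ) : ℂ) := by
    ext i
    apply Complex.ext
    · simp
    · rw [Complex.ofReal_im]; exact hh i
  constructor
  · rintro ⟨t, htK, ht⟩
    have h1 : (h - fun i => ((t i : ℝ) : ℂ)) ∈ F 0 := by
      have := (F 0).sub_mem ht hν
      convert this using 1
      abel
    have h2 : (h - fun i => ((t i : ℝ) : ℂ)) = 0 :=
      isMHS_pos hF hW (hF.F_anti (by norm_num) h1) (hh.sub fun i => Complex.ofReal_im _)
    intro i
    have h3 := congrFun (sub_eq_zero.mp h2) i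
    rw [h3, Complex.ofReal_re]
    exact htK i
  · intro hK
    refine ⟨fun i => (h i).re, hK, ?_⟩
    rw [← hre]
    exact hν

section

variable {X : Type*} [TopologicalSpace X] [ChartedSpace ℂ X] {D : Set X}

theorem point_eq (p : X) (u : ℂ) : Gap.point p u = pt p u := rfl

theorem variation_dense (V : Gap.Variation n lev X D) : Dense Dᶜ := by
  intro p
  by_cases hp : p ∈ D
  · rw [mem_closure_iff_nhds]
    intro U hU
    have h1 : Tendsto (fun s : ℂ => pt p (s ^ (V.cusp p).e)) (𝓝 0) (𝓝 p) := by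
      refine (tendsto_pt p).comp ?_
      have : Tendsto (fun s : ℂ => s ^ (V.cusp p).e) (𝓝 0) (𝓝 (0 ^ (V.cusp p).e)) :=
        (continuous_pow _).tendsto 0
      rwa [zero_pow (V.cusp p).e_pos.ne'] at this
    have h2 : ∀ᶠ s in 𝓝[≠] (0 : ℂ), pt p (s ^ (V.cusp p).e) ∈ U := nhdsWithin_le_nhds (h1 hU)
    have h3 : ∀ᶠ s in 𝓝[≠] (0 : ℂ), s ∈ ball (0 : ℂ) (V.cusp p).r :=
      nhdsWithin_le_nhds (isOpen_ball.mem_nhds (mem_ball_self (V.cusp p).r_pos))
    obtain ⟨s, ⟨hs1, hs2⟩, hs3⟩ := ((h2.and h3).and self_mem_nhdsWithin).exists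
    exact ⟨_, hs1, (V.cusp_dom p hp s hs2).2 hs3⟩
  · exact subset_closure hp

theorem mem_splitLocus_iff (V : Gap.Variation n lev X D) (K : Subfield ℝ) {x : X} (hx : x ∉ D)
    {F : ℤ → Submodule ℂ (Fin n → ℂ)} {ν : Fin n → ℂ}
    (h : Gap.HasPeriod D V.disc V.cusp x F ν) : x ∈ V.splitLocus K ↔ KSplit K F ν := by
  constructor
  · rintro ⟨-, F', ν', h', hP'⟩
    exact related_kSplit (V.compat x F' ν' F ν h' h) hP'
  · intro hPν
    exact ⟨hx, F, ν, h, hPν⟩

end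

theorem local_dichotomy {X : Type*} [TopologicalSpace X] [ChartedSpace ℂ X]
    {D : Set X} (V : Gap.Variation n lev X D) (K : Subfield ℝ) (p : X) :
    ∃ U ∈ 𝓝 p, (∀ x ∈ U, x ≠ p → x ∉ V.splitLocus K) ∨
      (∀ x ∈ U, x ∉ D → x ∈ V.splitLocus K) := by
  by_cases hp : p ∈ D
  · -- a puncture
    have key : ∀ y₁ : ℝ, ∃ U ∈ 𝓝 p, ∀ x ∈ U, x ≠ p → x ∉ D ∧ ∃ z : ℂ, y₁ < z.im ∧
        qexp z ∈ ball (0 : ℂ) (V.cusp p).r ∧
        Gap.HasPeriod D V.disc V.cusp x
          (fil lev fun j => expN (V.cusp p).N z ((V.cusp p).frame (qexp z) j))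
          ((V.cusp p).ν z) := by
      intro y₁
      set ε : ℝ := min (V.cusp p).r (Real.exp (-(2 * Real.pi * y₁))) with hε
      have hε0 : 0 < ε := lt_min (V.cusp p).r_pos (Real.exp_pos _)
      obtain ⟨U, hU, hU2⟩ := nhds_pt p (pow_pos hε0 (V.cusp p).e)
      refine ⟨U, hU, fun x hx hxp => ?_⟩
      obtain ⟨u, hu, hux, hu0⟩ := hU2 x hx
      obtain ⟨s, hs⟩ : ∃ s : ℂ, s ^ (V.cusp p).e = u :=
        IsAlgClosed.exists_pow_nat_eq u (V.cusp p).e_pos
      have hs0 : s ≠ 0 := by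
        intro h
        apply hu0 hxp
        rw [← hs, h, zero_pow (V.cusp p).e_pos.ne']
      have hsn : ‖s‖ < ε := by
        rw [← hs, norm_pow] at hu
        exact lt_of_pow_lt_pow_left₀ _ hε0.le hu
      obtain ⟨z, hz⟩ := exists_qq hs0
      have hsr : s ∈ ball (0 : ℂ) (V.cusp p).r := by
        rw [mem_ball_zero_iff]
        exact lt_of_lt_of_le hsn (min_le_left _ _)
      refine ⟨?_, z, ?_, ?_, ?_⟩
      · rw [← hux, ← hs]
        exact (V.cusp_dom p hp s hsr).2 hs0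
      · apply im_lt_of_norm_qq
        rw [hz]
        exact lt_of_lt_of_le hsn (min_le_right _ _)
      · rw [qexp_eq, hz]; exact hsr
      · right
        exact ⟨p, hp, z, by rw [qexp_eq, hz]; exact hsr, by rw [qexp_eq, hz, hs]; exact hux,
          rfl, rfl⟩
    rcases cusp_dichotomy (V.cusp p) with ⟨y₁, hy⟩ | ⟨y₁, h, hh, hy⟩
    · obtain ⟨U, hU, hU2⟩ := key y₁
      refine ⟨U, hU, Or.inl fun x hx hxp hmem => ?_⟩
      obtain ⟨hxD, z, hz, hzr, hper⟩ := hU2 x hx hxp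
      exact hy z hz ((mem_splitLocus_iff V K hxD hper).mp hmem).rsplit
    · obtain ⟨U, hU, hU2⟩ := key y₁
      by_cases hK : ∀ i, (h i).re ∈ K
      · refine ⟨U, hU, Or.inr fun x hx hxD => ?_⟩
        have hxp : x ≠ p := fun h => hxD (h ▸ hp)
        obtain ⟨_, z, hz, hzr, hper⟩ := hU2 x hx hxp
        rw [mem_splitLocus_iff V K hxD hper,
          kSplit_iff ((V.cusp p).mhs z hzr) (V.cusp p).weights hh (hy z hz)]
        exact hK
      · refine ⟨U, hU, Or.inl fun x hx hxp hmem => ?_⟩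
        obtain ⟨hxD, z, hz, hzr, hper⟩ := hU2 x hx hxp
        rw [mem_splitLocus_iff V K hxD hper,
          kSplit_iff ((V.cusp p).mhs z hzr) (V.cusp p).weights hh (hy z hz)] at hmem
        exact hK hmem
  · -- an interior point
    have key : ∀ ε > 0, ε ≤ (V.disc p).r → ∃ U ∈ 𝓝 p, ∀ x ∈ U, x ∉ D ∧ ∃ u : ℂ, ‖u‖ < ε ∧
        u ∈ ball (0 : ℂ) (V.disc p).r ∧ (x ≠ p → u ≠ 0) ∧
        Gap.HasPeriod D V.disc V.cusp x (fil lev ((V.disc p).frame u)) ((V.disc p).ν u) := by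
      intro ε hε hεr
      obtain ⟨U, hU, hU2⟩ := nhds_pt p hε
      refine ⟨U, hU, fun x hx => ?_⟩
      obtain ⟨u, hu, hux, hu0⟩ := hU2 x hx
      have hur : u ∈ ball (0 : ℂ) (V.disc p).r := by
        rw [mem_ball_zero_iff]
        exact lt_of_lt_of_le hu hεr
      refine ⟨?_, u, hu, hur, hu0, ?_⟩
      · rw [← hux]
        exact (V.disc_dom p hp u hur).2
      · left
        exact ⟨p, hp, u, hur, hux, rfl, rfl⟩
    rcases disc_dichotomy (V.disc p) with ⟨ε, hε, hεr, hy⟩ | ⟨ε, hε, hεr, h, hh, hy⟩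
    · obtain ⟨U, hU, hU2⟩ := key ε hε hεr
      refine ⟨U, hU, Or.inl fun x hx hxp hmem => ?_⟩
      obtain ⟨hxD, u, hu, hur, hu0, hper⟩ := hU2 x hx
      exact hy u (hu0 hxp) hu ((mem_splitLocus_iff V K hxD hper).mp hmem).rsplit
    · obtain ⟨U, hU, hU2⟩ := key ε hε hεr
      by_cases hK : ∀ i, (h i).re ∈ K
      · refine ⟨U, hU, Or.inr fun x hx hxD => ?_⟩
        obtain ⟨_, u, hu, hur, _, hper⟩ := hU2 x hx
        rw [mem_splitLocus_iff V K hxD hper,
          kSplit_iff ((V.disc p).mhs u hur) (V.disc p).weights hh (hy u hu)]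
        exact hK
      · refine ⟨U, hU, Or.inl fun x hx hxp hmem => ?_⟩
        obtain ⟨hxD, u, hu, hur, _, hper⟩ := hU2 x hx
        rw [mem_splitLocus_iff V K hxD hper,
          kSplit_iff ((V.disc p).mhs u hur) (V.disc p).weights hh (hy u hu)] at hmem
        exact hK hmem

/-- **Main theorem.** -/
theorem splitLocus_finite_or_all {X : Type*} [TopologicalSpace X] [ChartedSpace ℂ X]
    [CompactSpace X] [PreconnectedSpace X] [T1Space X] {D : Set X}
    (V : Gap.Variation n lev X D) (K : Subfield ℝ) :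
    (V.splitLocus K).Finite ∨ V.splitLocus K = Dᶜ := by
  rcases finite_or_all (variation_dense V) (local_dichotomy V K) with h | h
  · exact Or.inl h
  · exact Or.inr (Set.Subset.antisymm (fun x hx => hx.1) fun x hx => h x hx)

end Pool.Agent.Y92.GS
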