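import Pool.Agent.Y92.GS.Basic

/-!
# The local theorem at an interior point

The split points of a horizontal section are isolated, or the section is constant and real
modulo `F⁰`.
-/

namespace Pool.Agent.Y92.GS

open Filter Asymptotics Finset Metric
open scoped Topology ComplexConjugate

variable {κ : Type*} [Fintype κ] [DecidableEq κ]

open Classical in
/-- the part of a vector outside `P` -/
noncomputable def cut (P : κ → Prop) : (κ → ℂ) →L[ℂ] (κ → ℂ) :=
  LinearMap.toContinuousLinearMap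
    { toFun := fun c i => if P i then 0 else c i
      map_add' := fun x y => by ext i; simp only [Pi.add_apply]; split_ifs <;> simp
      map_smul' := fun t x => by ext i; simp }

omit [DecidableEq κ] in
theorem cut_apply_of_not {P : κ → Prop} (c : κ → ℂ) {i : κ} (h : ¬ P i) : cut P c i = c i := by
  simp [cut, h]

omit [DecidableEq κ] in
theorem cut_apply_of {P : κ → Prop} (c : κ → ℂ) {i : κ} (h : P i) : cut P c i = 0 := by
  simp [cut, h]

omit [DecidableEq κ] in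
theorem off_iff_cut {P : κ → Prop} {c : κ → ℂ} : Off P c ↔ cut P c = 0 := by
  constructor
  · intro h
    ext i
    by_cases hi : P i
    · exact cut_apply_of c hi
    · rw [cut_apply_of_not c hi]; exact h i hi
  · intro h i hi
    rw [← cut_apply_of_not c hi, h]
    rfl

omit [DecidableEq κ] in
theorem off_sub_cut {P : κ → Prop} (c : κ → ℂ) : Off P (c - cut P c) := by
  intro i hi
  rw [Pi.sub_apply, cut_apply_of_not c hi, sub_self]

omit [Fintype κ] [DecidableEq κ] in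
theorem eq_zero_of_off_or {P : κ → Prop} {c : κ → ℂ} (h1 : Off P c) (h2 : ∀ i, P i → c i = 0) :
    c = 0 := by
  ext i
  by_cases hi : P i
  · exact h2 i hi
  · exact h1 i hi

omit [DecidableEq κ] in
theorem SplitAt.smul_real {Φ : (κ → ℂ) →L[ℂ] (κ → ℂ)} {P : κ → Prop} {v : κ → ℂ}
    (h : SplitAt Φ P v) {t : ℂ} (ht : t.im = 0) : SplitAt Φ P (t • v) := by
  obtain ⟨c, hc, hr⟩ := h
  refine ⟨t • c, hc.smul t, ?_⟩
  rw [map_smul, ← smul_sub]
  exact hr.smul ht

omit [DecidableEq κ] in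
/-- the split condition for `v = h + Φ a`, `h` real, depends only on the part of `a` outside `P` -/
theorem SplitAt.cut {Φ : (κ → ℂ) →L[ℂ] (κ → ℂ)} {P : κ → Prop} {v h a : κ → ℂ}
    (hs : SplitAt Φ P v) (hh : IsR h) (ha : v - h = Φ a) : SplitAt Φ P (Φ (cut P a)) := by
  obtain ⟨c, hc, hr⟩ := hs
  refine ⟨c - (a - GS.cut P a), hc.sub (off_sub_cut a), ?_⟩
  have : Φ (GS.cut P a) - Φ (c - (a - GS.cut P a)) = (v - Φ c) - h := by
    rw [map_sub, map_sub, ← ha]
    abel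
  rw [this]
  exact hr.sub hh

theorem interior {r : ℝ} (hr : 0 < r) {Φ Ψ Φ' : ℂ → (κ → ℂ) →L[ℂ] (κ → ℂ)} {P₀ P₁ : κ → Prop}
    (h01 : ∀ j, P₀ j → P₁ j)
    (h1 : ∀ u ∈ ball (0 : ℂ) r, ∀ v, Φ u (Ψ u v) = v)
    (h2 : ∀ u ∈ ball (0 : ℂ) r, ∀ v, Ψ u (Φ u v) = v)
    (hΦ : ∀ u ∈ ball (0 : ℂ) r, HasDerivAt Φ (Φ' u) u) (hΨ : DifferentiableOn ℂ Ψ (ball 0 r))
    (htr : ∀ u ∈ ball (0 : ℂ) r, ∀ c, Off P₀ c → Off P₁ (Ψ u (Φ' u c)))
    {ν ν' : ℂ → κ → ℂ} (hν : ∀ u ∈ ball (0 : ℂ) r, HasDerivAt ν (ν' u) u)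
    (hν' : ∀ u ∈ ball (0 : ℂ) r, Off P₁ (Ψ u (ν' u)))
    (hpos : ∀ c, Off P₁ c → IsR (Φ 0 c) → c = 0) :
    (∃ ε > 0, ε ≤ r ∧ ∀ u : ℂ, u ≠ 0 → ‖u‖ < ε → ¬ SplitAt (Φ u) P₀ (ν u)) ∨
    (∃ ε > 0, ε ≤ r ∧ ∃ h, IsR h ∧ ∀ u : ℂ, ‖u‖ < ε → Off P₀ (Ψ u (ν u - h))) := by
  have h0 : (0 : ℂ) ∈ ball (0 : ℂ) r := mem_ball_self hr
  have hnh : ball (0 : ℂ) r ∈ 𝓝 (0 : ℂ) := isOpen_ball.mem_nhds h0
  have hΦd : DifferentiableOn ℂ Φ (ball 0 r) :=
    fun u hu => (hΦ u hu).differentiableAt.differentiableWithinAt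
  have hΦa : AnalyticAt ℂ Φ 0 := hΦd.analyticAt hnh
  have hΨa : AnalyticAt ℂ Ψ 0 := hΨ.analyticAt hnh
  have hνd : DifferentiableOn ℂ ν (ball 0 r) :=
    fun u hu => (hν u hu).differentiableAt.differentiableWithinAt
  have hνa : AnalyticAt ℂ ν 0 := hνd.analyticAt hnh
  have hpos0 : ∀ c, Off P₀ c → IsR (Φ 0 c) → c = 0 := fun c hc => hpos c (hc.mono h01)
  by_cases hiso : ∀ᶠ u in 𝓝[≠] (0 : ℂ), ¬ SplitAt (Φ u) P₀ (ν u)
  · left
    rw [eventually_nhdsWithin_iff] at hiso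
    obtain ⟨δ, hδ, hδ2⟩ := Metric.eventually_nhds_iff.mp hiso
    refine ⟨min δ r, lt_min hδ hr, min_le_right _ _, fun u hu0 hu => ?_⟩
    exact hδ2 (by simpa using lt_of_lt_of_le hu (min_le_left _ _)) hu0
  have hfreq : ∃ᶠ u in 𝓝[≠] (0 : ℂ), SplitAt (Φ u) P₀ (ν u) := by
    rw [Filter.Frequently]
    exact hiso
  obtain ⟨u, hu, hus⟩ := exists_seq_forall_of_frequently hfreq
  have hu' : Tendsto u atTop (𝓝 0) := hu.mono_right nhdsWithin_le_nhds
  have hune : ∀ᶠ n in atTop, u n ≠ 0 := by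
    have := hu.eventually self_mem_nhdsWithin
    simpa using this
  -- the real vector `h`
  obtain ⟨c₀, hc₀, hh⟩ := split_limit hΦa.continuousAt hpos0 hu'
    (hνa.continuousAt.tendsto.comp hu') hus
  set h : κ → ℂ := ν 0 - Φ 0 c₀ with hhdef
  set a : ℂ → κ → ℂ := fun u => Ψ u (ν u - h) with hadef
  have ha0 : a 0 = c₀ := by
    simp only [hadef, hhdef]
    rw [sub_sub_cancel]
    exact h2 0 h0 c₀
  have hΦΨa : ∀ u ∈ ball (0 : ℂ) r, ν u - h = Φ u (a u) := fun u hu => (h1 u hu _).symm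
  have had : DifferentiableOn ℂ a (ball 0 r) := hΨ.clm_apply (hνd.sub_const h)
  have hcad : DifferentiableOn ℂ (fun u => cut P₀ (a u)) (ball 0 r) :=
    (cut P₀).differentiable.comp_differentiableOn had
  have hcaa : AnalyticAt ℂ (fun u => cut P₀ (a u)) 0 := hcad.analyticAt hnh
  by_cases hz : ∀ᶠ u in 𝓝 (0 : ℂ), cut P₀ (a u) = 0
  · right
    obtain ⟨δ, hδ, hδ2⟩ := Metric.eventually_nhds_iff.mp hz
    refine ⟨min δ r, lt_min hδ hr, min_le_right _ _, h, hh, fun u hu => ?_⟩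
    exact off_iff_cut.mpr (hδ2 (by simpa using lt_of_lt_of_le hu (min_le_left _ _)))
  exfalso
  obtain ⟨m, α, hα, hα0, hev⟩ := hcaa.exists_eventuallyEq_pow_smul_nonzero_iff.mpr hz
  simp only [sub_zero] at hev
  have hm : m ≠ 0 := by
    rintro rfl
    have := hev.self_of_nhds
    rw [ha0, off_iff_cut.mp hc₀, pow_zero, one_smul] at this
    exact hα0 this.symm
  -- `α 0` is supported outside of `P₀`
  have hαP : ∀ i, P₀ i → α 0 i = 0 := by
    intro i hi
    have e1 : ∀ᶠ u in 𝓝[≠] (0 : ℂ), α u i = 0 := by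
      filter_upwards [nhdsWithin_le_nhds hev, self_mem_nhdsWithin] with u hu hu0
      have e2 := congrFun hu i
      rw [cut_apply_of _ hi, Pi.smul_apply, smul_eq_mul] at e2
      exact (mul_eq_zero.mp e2.symm).resolve_left (pow_ne_zero m hu0)
    have e3 : Tendsto (fun u => α u i) (𝓝[≠] 0) (𝓝 (α 0 i)) :=
      ((tendsto_pi_nhds.mp hα.continuousAt.tendsto) i).mono_left nhdsWithin_le_nhds
    exact tendsto_nhds_unique e3 (Tendsto.congr' (e1.mono fun u hu => hu.symm) tendsto_const_nhds)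
  -- horizontality: `α 0` is supported in `P₁`
  have hαP1 : Off P₁ (α 0) := by
    intro i hi
    have hi0 : ¬ P₀ i := fun h' => hi (h01 i h')
    have hev2 : ∀ᶠ u in 𝓝 (0 : ℂ), ∀ᶠ w in 𝓝 u, cut P₀ (a w) = w ^ m • α w :=
      eventually_eventually_nhds.mpr hev
    have hΩ : ContinuousAt (fun u => (2 * Real.pi * Complex.I * u) • (Ψ u * deriv Φ u)) 0 := by
      refine ContinuousAt.smul (continuous_const.mul continuous_id).continuousAt ?_
      exact hΨa.continuousAt.mul hΦa.deriv.continuousAt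
    have key := leading hΩ hα m (i := i) ?_
    · have hΩ0 : ((2 * Real.pi * Complex.I * (0 : ℂ)) • (Ψ 0 * deriv Φ 0)) (α 0) i = 0 := by
        simp
      rw [hΩ0, neg_zero] at key
      have h2pi : (2 * Real.pi * Complex.I : ℂ) ≠ 0 := Complex.two_pi_I_ne_zero
      have hmc : (m : ℂ) ≠ 0 := by exact_mod_cast hm
      exact (mul_eq_zero.mp key).resolve_left (mul_ne_zero h2pi hmc)
    · filter_upwards [nhdsWithin_le_nhds hev2, nhdsWithin_le_nhds hnh] with u hu hub
      have e1 : deriv (fun w => w ^ m * α w i) u = deriv (fun w => a w i) u := by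
        apply Filter.EventuallyEq.deriv_eq
        filter_upwards [hu] with w hw
        have := congrFun hw i
        rw [cut_apply_of_not _ hi0] at this
        rw [this]
        rfl
      have hau : DifferentiableAt ℂ a u := had.differentiableAt (isOpen_ball.mem_nhds hub)
      have e2 : ν' u = Φ' u (a u) + Φ u (deriv a u) := by
        have d1 := (hΦ u hub).clm_apply hau.hasDerivAt
        have d2 : HasDerivAt (fun w => Φ w (a w)) (ν' u) u := by
          have d3 : HasDerivAt (fun w => ν w - h) (ν' u) u := (hν u hub).sub_const h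
          refine d3.congr_of_eventuallyEq ?_
          filter_upwards [isOpen_ball.mem_nhds hub] with w hw
          exact (hΦΨa w hw).symm
        exact d2.unique d1
      have e3 : deriv a u = Ψ u (ν' u) - Ψ u (Φ' u (a u)) := by
        rw [← map_sub, e2, add_sub_cancel_left, h2 u hub]
      have e4 : deriv (fun w => a w i) u = deriv a u i := by
        exact ((hasDerivAt_pi.mp hau.hasDerivAt) i).deriv
      have e5 : (Ψ u (Φ' u (a u))) i = (Ψ u (Φ' u (cut P₀ (a u)))) i := by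
        have := htr u hub _ (off_sub_cut (a u)) i hi
        rw [map_sub, map_sub, Pi.sub_apply, sub_eq_zero] at this
        exact this
      rw [e1, e4, e3, Pi.sub_apply, hν' u hub i hi, zero_sub, e5, hu.self_of_nhds,
        (hΦ u hub).deriv]
      simp
      ring
  -- the limit of the normalised split conditions
  have hsplit : ∀ᶠ n in atTop, SplitAt (Φ (u n)) P₀
      (((u n) ^ m / ((‖u n‖ ^ m : ℝ) : ℂ)) • Φ (u n) (α (u n))) := by
    filter_upwards [hune, hu'.eventually hev, hu'.eventually hnh] with n hn hn2 hn3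
    have e1 := (hus n).cut hh (hΦΨa (u n) hn3)
    rw [hn2, map_smul] at e1
    have e2 := e1.smul_real (t := (((‖u n‖ ^ m)⁻¹ : ℝ) : ℂ)) (Complex.ofReal_im _)
    rw [smul_smul] at e2
    convert e2 using 2
    push_cast
    rw [div_eq_inv_mul]
  have hθ : ∀ᶠ n in atTop, ((u n) ^ m / ((‖u n‖ ^ m : ℝ) : ℂ)) ∈ sphere (0 : ℂ) 1 := by
    filter_upwards [hune] with n hn
    rw [mem_sphere_zero_iff_norm, norm_div, norm_pow, Complex.norm_real, norm_pow, norm_norm]
    exact div_self (pow_ne_zero m (norm_ne_zero_iff.mpr hn))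
  obtain ⟨n₀, hn₀⟩ := (hsplit.and hθ).exists_forall_of_atTop
  obtain ⟨θ, hθ1, φ, hφ, hlim⟩ := (isCompact_sphere (0 : ℂ) 1).tendsto_subseq
    (x := fun n => (u (n + n₀)) ^ m / ((‖u (n + n₀)‖ ^ m : ℝ) : ℂ))
    (fun n => (hn₀ (n + n₀) (by omega)).2)
  have hmono : Tendsto (fun n => φ n + n₀) atTop atTop :=
    tendsto_atTop_mono (fun n => Nat.le_add_right _ _) hφ.tendsto_atTop
  have hu2 : Tendsto (fun n => u (φ n + n₀)) atTop (𝓝 0) := hu'.comp hmono
  have hv : Tendsto (fun n => ((u (φ n + n₀)) ^ m / ((‖u (φ n + n₀)‖ ^ m : ℝ) : ℂ)) •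
      Φ (u (φ n + n₀)) (α (u (φ n + n₀)))) atTop (𝓝 (θ • Φ 0 (α 0))) := by
    refine Tendsto.smul hlim ?_
    exact tendsto_clm_apply (hΦa.continuousAt.tendsto.comp hu2)
      (hα.continuousAt.tendsto.comp hu2)
  obtain ⟨c, hc, hcr⟩ := split_limit hΦa.continuousAt hpos0 hu2 hv
    (fun n => (hn₀ (φ n + n₀) (by omega)).1)
  rw [← map_smul, ← map_sub] at hcr
  have e6 := hpos _ ((hαP1.smul θ).sub (hc.mono h01)) hcr
  have e7 := sub_eq_zero.mp e6
  have hθ0 : θ ≠ 0 := by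
    intro h'
    rw [h', mem_sphere_zero_iff_norm, norm_zero] at hθ1
    exact zero_ne_one hθ1
  apply hα0
  refine eq_zero_of_off_or (P := P₀) ?_ hαP
  intro i hi
  have e8 := congrFun e7 i
  rw [hc i hi, Pi.smul_apply, smul_eq_mul] at e8
  exact (mul_eq_zero.mp e8).resolve_left hθ0

end Pool.Agent.Y92.GS
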