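import Pool.Agent.Y92.GS.Frames
import Pool.Agent.Y92.RS.CuspFinal
import Pool.Agent.Y92.RS.PairDisc

/-!
# Local dichotomies
-/

namespace Pool.Agent.Y92.GS

open Pool.Agent.Y92.RS Pool.Agent.Y92.Gap Filter Asymptotics Finset Metric Matrix
open scoped Topology ComplexConjugate Nat

variable {n : ℕ} {lev : Fin n → ℤ}

/-- real splitting -/
def RSplit (F : ℤ → Submodule ℂ (Fin n → ℂ)) (ν : Fin n → ℂ) : Prop :=
  ∃ h : Fin n → ℝ, (ν - fun i => ((h i : ℝ) : ℂ)) ∈ F 0

theorem disc_dichotomy (c : DiscChart n lev) :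
    (∃ ε > 0, ε ≤ c.r ∧ ∀ u : ℂ, u ≠ 0 → ‖u‖ < ε → ¬ RSplit (fil lev (c.frame u)) (c.ν u)) ∨
    (∃ ε > 0, ε ≤ c.r ∧ ∃ h : Fin n → ℂ, IsR h ∧ ∀ u : ℂ, ‖u‖ < ε →
      c.ν u - h ∈ fil lev (c.frame u) 0) := by
  have hd : ∀ u ∈ ball (0 : ℂ) c.r, ∀ j, DifferentiableAt ℂ (fun u => c.frame u j) u :=
    fun u hu j => (c.frame_holo j).differentiableAt (isOpen_ball.mem_nhds hu)
  have hνd : ∀ u ∈ ball (0 : ℂ) c.r, DifferentiableAt ℂ c.ν u :=
    fun u hu => c.ν_holo.differentiableAt (isOpen_ball.mem_nhds hu)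
  rcases interior c.r_pos (Φ := fun u => mk (c.frame u)) (Ψ := fun u => mkInv (c.frame u))
    (Φ' := fun u => mk (fun j => deriv (fun u => c.frame u j) u))
    (P₀ := fun j => 0 ≤ lev j) (P₁ := fun j => -1 ≤ lev j) (fun j hj => by omega)
    (fun u hu v => mk_mkInv (c.frame_indep u hu) v)
    (fun u hu v => mkInv_mk (c.frame_indep u hu) v)
    (fun u hu => hasDerivAt_mk (hd u hu))
    (fun u hu => (differentiableAt_mkInv (hd u hu) (c.frame_indep u hu)).differentiableWithinAt)
    (fun u hu e he => by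
      rw [mk_apply]
      intro i hi
      rw [map_sum, Finset.sum_apply]
      refine Finset.sum_eq_zero fun j _ => ?_
      rw [map_smul, Pi.smul_apply]
      by_cases hj : 0 ≤ lev j
      · have h1 := (mem_fil_iff (c.frame_indep u hu) _ _).mp (c.transversal u hu j) i
          (by omega)
        rw [h1, smul_zero]
      · rw [he j hj, zero_smul])
    (ν := c.ν) (ν' := deriv c.ν) (fun u hu => (hνd u hu).hasDerivAt)
    (fun u hu => (mem_fil_iff (c.frame_indep u hu) _ _).mp (c.horizontal u hu))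
    (pos_of_mhs (c.mhs 0 (mem_ball_self c.r_pos)) c.weights
      (mk_inj (c.frame_indep 0 (mem_ball_self c.r_pos)))) with ⟨ε, hε, hεr, h⟩ | ⟨ε, hε, hεr, h, hh, hc⟩
  · refine Or.inl ⟨ε, hε, hεr, fun u hu0 hu hs => h u hu0 hu ?_⟩
    have hur : u ∈ ball (0 : ℂ) c.r := by
      rw [mem_ball_zero_iff]
      exact lt_of_lt_of_le hu hεr
    exact (splitAt_iff (c.frame_indep u hur)).mpr hs
  · refine Or.inr ⟨ε, hε, hεr, h, hh, fun u hu => ?_⟩
    have hur : u ∈ ball (0 : ℂ) c.r := by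
      rw [mem_ball_zero_iff]
      exact lt_of_lt_of_le hu hεr
    exact (mem_fil_iff (c.frame_indep u hur) _ _).mpr (hc u hu)

theorem qexp_eq (z : ℂ) : qexp z = qq z := rfl

/-- the class in the form `tz w + exp (zN) b(q)` -/
theorem exists_form (c : CuspChart n lev) :
    ∃ ρ : ℝ, 0 < ρ ∧ ρ ≤ c.r ∧ ∃ (w : Fin n → ℂ) (b b' : ℂ → Fin n → ℂ), IsR w ∧
      (∀ q ∈ ball (0 : ℂ) ρ, HasDerivAt b (b' q) q) ∧
      (∀ z, qq z ∈ ball (0 : ℂ) ρ →
        c.ν z = tz (op c.N) n z w + ex (op c.N) z (b (qq z))) ∧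
      (∀ q ∈ ball (0 : ℂ) ρ, Off (fun j => -1 ≤ lev j) (mkInv (c.frame q)
        (w + op c.N (b q) + (2 * Real.pi * Complex.I * q) • b' q))) := by
  have hK := op_nilpotent c.nilpotent
  rcases Nat.eq_zero_or_pos n with hn | hn
  · subst hn
    refine ⟨c.r, c.r_pos, le_rfl, 0, 0, 0, fun i => i.elim0, fun q _ => hasDerivAt_const _ _,
      fun z _ => Subsingleton.elim _ _, fun q _ i => i.elim0⟩
  have hρ2 : 0 < c.r / 2 := by linarith [c.r_pos]
  have hfd : ∀ u ∈ ball (0 : ℂ) c.r, ∀ j, DifferentiableAt ℂ (fun u => c.frame u j) u :=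
    fun u hu j => (c.frame_holo j).differentiableAt (isOpen_ball.mem_nhds hu)
  set ψ : ℂ → Fin n → ℂ := fun q => mk (c.frame q) (c.coef q) with hψdef
  have hψ : DifferentiableOn ℂ ψ (ball 0 c.r) := by
    intro u hu
    exact ((hasDerivAt_mk (hfd u hu)).differentiableAt.clm_apply
      (c.coef_holo.differentiableAt (isOpen_ball.mem_nhds hu))).differentiableWithinAt
  have hψoff : ∀ q ∈ ball (0 : ℂ) c.r, Off (fun j => -1 ≤ lev j) (mkInv (c.frame q) (ψ q)) := by
    intro q hq
    rw [hψdef, mkInv_mk (c.frame_indep q hq)]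
    intro j hj
    exact c.coef_zero q hq j (by omega)
  have hνder : ∀ z, qq z ∈ ball (0 : ℂ) c.r → HasDerivAt c.ν (ex (op c.N) z (ψ (qq z))) z := by
    intro z hz
    refine (c.deriv_ν z hz).congr_deriv ?_
    rw [hψdef]
    simp only [mk_apply, map_sum, map_smul]
    refine Finset.sum_congr rfl fun j _ => ?_
    rw [expN_eq c.nilpotent]
    rfl
  have hgood := good_of_differentiableOn c.r_pos hψ 0
  simp only [pow_zero, one_smul, zero_add] at hgood
  obtain ⟨G, G', hG, hGd, hGe⟩ := exists_solve hρ2 le_rfl hK hgood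
  obtain ⟨y₁, -, hy₁⟩ := exists_exp_le hρ2 0
  have hsub : ball (0 : ℂ) (c.r / 2) ⊆ ball 0 c.r := ball_subset_ball (by linarith [c.r_pos])
  have hder : ∀ z : ℂ, y₁ < z.im → HasDerivAt
      (fun z => c.ν z - ex (op c.N) z (G (qq z)) - tz (op c.N) n z (ψ 0)) 0 z := by
    intro z hz
    have hq := norm_qq_lt hy₁ hz
    have h1 := hνder z (hsub hq)
    have h2 := hasDerivAt_ex_comp (op c.N) (hGd _ hq)
    have h3 : HasDerivAt (fun ζ : ℂ => tz (op c.N) n ζ (ψ 0)) (ex (op c.N) z (ψ 0)) z := by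
      have := (hasDerivAt_tz hK z).clm_apply (hasDerivAt_const _ (ψ 0))
      simpa using this
    refine ((h1.sub h2).sub h3).congr_deriv ?_
    rw [hGe _ hq, ← map_sub, ← map_sub]
    simp
  obtain ⟨a, ha⟩ := const_on_halfPlane hder
  have hform : ∀ z : ℂ, y₁ < z.im →
      c.ν z = a + tz (op c.N) n z (ψ 0) + ex (op c.N) z (G (qq z)) := by
    intro z hz
    rw [← ha z hz]
    abel
  set w : Fin n → ℂ := ψ 0 - op c.N a with hw
  -- `w` is real
  have hwr : IsR w := by
    set z₀ : ℂ := ((y₁ + 1 : ℝ) : ℂ) * Complex.I with hz₀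
    have him : y₁ < z₀.im := by simp [hz₀]
    have him1 : y₁ < (z₀ + 1).im := by simp [hz₀]
    obtain ⟨w', hw'⟩ := c.monodromy z₀ (hsub (norm_qq_lt hy₁ him))
    rw [expN_eq c.nilpotent, hform _ him, hform _ him1, qq_add_one] at hw'
    have h1 : tz (op c.N) n 1 w = fun i => ((w' i : ℚ) : ℂ) := by
      have e1 := tz_add_apply hK 1 z₀ (ψ 0)
      have e2 : ex (op c.N) (z₀ + 1) (G (qq z₀)) = ex (op c.N) 1 (ex (op c.N) z₀ (G (qq z₀))) := by
        rw [add_comm, ex_add]; rfl
      rw [add_comm z₀ 1, e1, add_comm 1 z₀, e2, map_add, map_add] at hw'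
      have e3 : tz (op c.N) n 1 (op c.N a) = ex (op c.N) 1 a - a := tz_mul_apply hK 1 a
      rw [hw, map_sub, e3]
      have e4 : (fun i => ((w' i : ℚ) : ℂ)) = a + (tz (op c.N) n 1 (ψ 0)
          + ex (op c.N) 1 (tz (op c.N) n z₀ (ψ 0))) + ex (op c.N) 1 (ex (op c.N) z₀ (G (qq z₀)))
          - (ex (op c.N) 1 a + ex (op c.N) 1 (tz (op c.N) n z₀ (ψ 0))
            + ex (op c.N) 1 (ex (op c.N) z₀ (G (qq z₀)))) := by
        rw [hw']
        abel
      rw [e4]
      abel
    have h2 : IsR (tz (op c.N) n 1 w) := by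
      rw [h1]
      intro i
      exact Complex.ratCast_im _
    have hop : RealOp (xc (Fin n)) (op c.N) := fun v hv => op_real c.N hv
    exact isRe_of_tz_one hop hK hn.ne' h2
  refine ⟨c.r / 2, hρ2, by linarith [c.r_pos], w, fun q => a + G q, G', hwr,
    fun q hq => (hGd q hq).const_add a, ?_, ?_⟩
  · -- the identity on the whole half plane
    intro z hz
    have hz' : ‖qq z‖ < c.r / 2 := by rwa [mem_ball_zero_iff] at hz
    have hzr : ‖qq z‖ < c.r := by linarith [c.r_pos]
    set y₂ : ℝ := -(Real.log (c.r / 2)) / (2 * Real.pi) with hy₂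
    have hpi := Real.pi_pos
    have hexp : Real.exp (-(2 * Real.pi * y₂)) = c.r / 2 := by
      rw [hy₂]
      have : -(2 * Real.pi * (-Real.log (c.r / 2) / (2 * Real.pi))) = Real.log (c.r / 2) := by
        field_simp
      rw [this, Real.exp_log hρ2]
    have hzim : y₂ < z.im := by
      apply im_lt_of_norm_qq
      rw [hexp]
      exact hz'
    have hder2 : ∀ z : ℂ, y₂ < z.im → HasDerivAt
        (fun z => c.ν z - ex (op c.N) z (G (qq z)) - tz (op c.N) n z (ψ 0)) 0 z := by
      intro z hz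
      have hq : qq z ∈ ball (0 : ℂ) (c.r / 2) := norm_qq_lt hexp.le hz
      have h1 := hνder z (hsub hq)
      have h2 := hasDerivAt_ex_comp (op c.N) (hGd _ hq)
      have h3 : HasDerivAt (fun ζ : ℂ => tz (op c.N) n ζ (ψ 0)) (ex (op c.N) z (ψ 0)) z := by
        have := (hasDerivAt_tz hK z).clm_apply (hasDerivAt_const _ (ψ 0))
        simpa using this
      refine ((h1.sub h2).sub h3).congr_deriv ?_
      rw [hGe _ hq, ← map_sub, ← map_sub]
      simp
    obtain ⟨a', ha'⟩ := const_on_halfPlane hder2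
    have haa : a' = a := by
      have h1 := ha (((max y₁ y₂ + 1 : ℝ) : ℂ) * Complex.I) (by
        simp only [Complex.mul_im, Complex.I_im, Complex.ofReal_im, Complex.I_re,
          Complex.ofReal_re, mul_one, mul_zero, add_zero]
        linarith [le_max_left y₁ y₂])
      have h2 := ha' (((max y₁ y₂ + 1 : ℝ) : ℂ) * Complex.I) (by
        simp only [Complex.mul_im, Complex.I_im, Complex.ofReal_im, Complex.I_re,
          Complex.ofReal_re, mul_one, mul_zero, add_zero]
        linarith [le_max_right y₁ y₂])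
      rw [← h1, ← h2]
    have h3 : c.ν z = a + tz (op c.N) n z (ψ 0) + ex (op c.N) z (G (qq z)) := by
      rw [← haa, ← ha' z hzim]
      abel
    rw [h3, hw, map_sub, tz_mul_apply hK, map_add]
    abel
  · intro q hq
    have h1 := hGe q hq
    have h2 : w + op c.N (a + G q) + (2 * Real.pi * Complex.I * q) • G' q = ψ q := by
      rw [map_add, hw]
      calc ψ 0 - op c.N a + (op c.N a + op c.N (G q)) + (2 * Real.pi * Complex.I * q) • G' q
          = ψ 0 + ((2 * Real.pi * Complex.I * q) • G' q + op c.N (G q)) := by abel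
        _ = ψ q := by rw [h1]; abel
    rw [h2]
    exact hψoff q (hsub hq)

/-- the data at the cusp satisfy the assumptions of the theorem at the cusp -/
theorem exists_setup (c : CuspChart n lev) {ρ : ℝ} (hρ : 0 < ρ) (hρr : ρ ≤ c.r) :
    ∃ S : Setup (Fin n), S.N = op c.N ∧ S.K = n ∧ S.r = ρ ∧ (∀ q, S.Φ q = mk (c.frame q)) ∧
      (∀ q, S.Ψ q = mkInv (c.frame q)) ∧ S.P₀ = (fun j => 0 ≤ lev j) ∧
      S.P₁ = (fun j => -1 ≤ lev j) := by
  have hK := op_nilpotent c.nilpotent
  have hsub : ball (0 : ℂ) ρ ⊆ ball 0 c.r := ball_subset_ball hρr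
  have hd : ∀ u ∈ ball (0 : ℂ) c.r, ∀ j, DifferentiableAt ℂ (fun u => c.frame u j) u :=
    fun u hu j => (c.frame_holo j).differentiableAt (isOpen_ball.mem_nhds hu)
  have h0r : (0 : ℂ) ∈ ball (0 : ℂ) c.r := mem_ball_self c.r_pos
  -- transversality
  have htr1 : ∀ q ∈ ball (0 : ℂ) c.r, q ≠ 0 → ∀ j, Off (fun i => lev j - 1 ≤ lev i)
      (mkInv (c.frame q) (op c.N (c.frame q j)
        + (2 * Real.pi * Complex.I * q) • deriv (fun u => c.frame u j) q)) := by
    intro q hq hq0 j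
    obtain ⟨z, rfl⟩ := exists_qq hq0
    have h1 := c.transversal z hq j
    have h2 : deriv (fun z => expN c.N z (c.frame (qexp z) j)) z
        = ex (op c.N) z ((2 * Real.pi * Complex.I * qq z) • deriv (fun u => c.frame u j) (qq z)
          + op c.N (c.frame (qq z) j)) := by
      have h3 := hasDerivAt_ex_comp (op c.N) (hd _ hq j).hasDerivAt
      have h4 : (fun z => expN c.N z (c.frame (qexp z) j))
          = fun z => ex (op c.N) z (c.frame (qq z) j) := funext fun z =>
        expN_eq c.nilpotent z _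
      rw [h4]
      exact h3.deriv
    simp only [qexp_eq] at h1 h2
    rw [h2, mem_fil_iff (indep_exp c.nilpotent z (c.frame_indep _ hq)),
      mkInv_exp c.nilpotent z (c.frame_indep _ hq), ex_neg_apply, add_comm] at h1
    exact h1
  have htr2 : ∀ q ∈ ball (0 : ℂ) c.r, ∀ j, Off (fun i => lev j - 1 ≤ lev i)
      (mkInv (c.frame q) (op c.N (c.frame q j)
        + (2 * Real.pi * Complex.I * q) • deriv (fun u => c.frame u j) q)) := by
    intro q hq j
    by_cases hq0 : q = 0
    swap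
    · exact htr1 q hq hq0 j
    subst hq0
    have hcont : ContinuousAt (fun q => mkInv (c.frame q) (op c.N (c.frame q j)
        + (2 * Real.pi * Complex.I * q) • deriv (fun u => c.frame u j) q)) 0 := by
      have e1 : ContinuousAt (fun q => mkInv (c.frame q)) 0 :=
        (differentiableAt_mkInv (hd 0 h0r) (c.frame_indep 0 h0r)).continuousAt
      have e2 : ContinuousAt (fun q => op c.N (c.frame q j)) 0 :=
        (op c.N).continuous.continuousAt.comp (hd 0 h0r j).continuousAt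
      have e3 : ContinuousAt (fun q => deriv (fun u => c.frame u j) q) 0 :=
        (((c.frame_holo j).analyticAt (isOpen_ball.mem_nhds h0r)).deriv).continuousAt
      have e4 : ContinuousAt (fun q : ℂ => 2 * Real.pi * Complex.I * q) 0 :=
        (continuous_const.mul continuous_id).continuousAt
      exact tendsto_clm_apply e1.tendsto (e2.add (e4.smul e3)).tendsto
    have h1 : ∀ᶠ q in 𝓝[≠] (0 : ℂ), q ∈ ball (0 : ℂ) c.r :=
      nhdsWithin_le_nhds (isOpen_ball.mem_nhds h0r)
    have h2 : ∀ᶠ q in 𝓝[≠] (0 : ℂ), Off (fun i => lev j - 1 ≤ lev i)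
        (mkInv (c.frame q) (op c.N (c.frame q j)
          + (2 * Real.pi * Complex.I * q) • deriv (fun u => c.frame u j) q)) := by
      filter_upwards [h1, self_mem_nhdsWithin] with q hq hq0
      exact htr1 q hq hq0 j
    exact (isClosed_off _).mem_of_tendsto (hcont.tendsto.mono_left nhdsWithin_le_nhds) h2
  have htr : ∀ q ∈ ball (0 : ℂ) ρ, ∀ e, Off (fun j => 0 ≤ lev j) e →
      Off (fun j => -1 ≤ lev j) (mkInv (c.frame q) (op c.N (mk (c.frame q) e)
        + (2 * Real.pi * Complex.I * q) • mk (fun j => deriv (fun u => c.frame u j) q) e)) := by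
    intro q hq e he
    have h1 : op c.N (mk (c.frame q) e)
        + (2 * Real.pi * Complex.I * q) • mk (fun j => deriv (fun u => c.frame u j) q) e
        = ∑ j, e j • (op c.N (c.frame q j)
          + (2 * Real.pi * Complex.I * q) • deriv (fun u => c.frame u j) q) := by
      rw [mk_apply, mk_apply, map_sum, Finset.smul_sum, ← Finset.sum_add_distrib]
      refine Finset.sum_congr rfl fun j _ => ?_
      rw [map_smul, smul_add, smul_comm]
    rw [h1]
    intro i hi
    rw [map_sum, Finset.sum_apply]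
    refine Finset.sum_eq_zero fun j _ => ?_
    rw [map_smul, Pi.smul_apply]
    by_cases hj : 0 ≤ lev j
    · rw [htr2 q (hsub hq) j i (by omega), smul_zero]
    · rw [he j hj, zero_smul]
  obtain ⟨y₀, hy₀⟩ := c.limit
  refine ⟨{
    N := op c.N
    K := n
    N_re := fun v hv => op_real c.N hv
    N_nil := hK
    r := ρ
    r_pos := hρ
    Φ := fun q => mk (c.frame q)
    Ψ := fun q => mkInv (c.frame q)
    Φ' := fun q => mk (fun j => deriv (fun u => c.frame u j) q)
    P₀ := fun j => 0 ≤ lev j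
    P₁ := fun j => -1 ≤ lev j
    h01 := fun j hj => by omega
    inv1 := fun q hq v => mk_mkInv (c.frame_indep q (hsub hq)) v
    inv2 := fun q hq v => mkInv_mk (c.frame_indep q (hsub hq)) v
    hΦ := fun q hq => hasDerivAt_mk (hd q (hsub hq))
    hΨ := fun q hq => (differentiableAt_mkInv (hd q (hsub hq))
      (c.frame_indep q (hsub hq))).differentiableWithinAt
    htr := htr
    y₀ := y₀
    hpos := fun y hy => by
      have h1 := hy₀ (y * Complex.I) (by simpa using hy)
      have h2 := pos_of_mhs h1 c.weights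
        (mk_inj (indep_exp c.nilpotent _ (c.frame_indep 0 h0r)))
      rw [mk_exp c.nilpotent] at h2
      exact h2 }, rfl, rfl, rfl, fun _ => rfl, fun _ => rfl, rfl, rfl⟩

theorem cusp_dichotomy (c : CuspChart n lev) :
    (∃ y₁ : ℝ, ∀ z : ℂ, y₁ < z.im →
      ¬ RSplit (fil lev fun j => expN c.N z (c.frame (qexp z) j)) (c.ν z)) ∨
    (∃ y₁ : ℝ, ∃ h : Fin n → ℂ, IsR h ∧ ∀ z : ℂ, y₁ < z.im →
      c.ν z - h ∈ fil lev (fun j => expN c.N z (c.frame (qexp z) j)) 0) := by
  obtain ⟨ρ, hρ, hρr, w, b, b', hw, hb, hform, hhor⟩ := exists_form c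
  obtain ⟨S, hN, hSK, hr, hΦ, hΨ, hP₀, hP₁⟩ := exists_setup c hρ hρr
  obtain ⟨y₂, -, hy₂⟩ := exists_exp_le hρ 0
  have hsub : ball (0 : ℂ) ρ ⊆ ball 0 c.r := ball_subset_ball hρr
  have key := S.cusp (b := b) (b' := b') (by rw [hr]; exact hb) hw
    (by rw [hr, hP₁, hN]; intro q hq; rw [hΨ]; exact hhor q hq)
  rcases key with ⟨y₁, h⟩ | ⟨y₁, h, hh, hc⟩
  · refine Or.inl ⟨max y₁ y₂, fun z hz hs => ?_⟩
    have hz1 : y₁ < z.im := lt_of_le_of_lt (le_max_left _ _) hz
    have hq : qq z ∈ ball (0 : ℂ) ρ := norm_qq_lt hy₂ (lt_of_le_of_lt (le_max_right _ _) hz)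
    apply h z hz1
    rw [hN, hSK, hΦ, hP₀, ← hform z hq, ← mk_exp c.nilpotent]
    exact (splitAt_iff (indep_exp c.nilpotent z (c.frame_indep _ (hsub hq)))).mpr hs
  · refine Or.inr ⟨max y₁ y₂, h, hh, fun z hz => ?_⟩
    have hz1 : y₁ < z.im := lt_of_le_of_lt (le_max_left _ _) hz
    have hq : qq z ∈ ball (0 : ℂ) ρ := norm_qq_lt hy₂ (lt_of_le_of_lt (le_max_right _ _) hz)
    have h1 := hc z hz1
    rw [hN, hSK, hΨ, hP₀, ← hform z hq] at h1
    simp only [qexp_eq]
    rw [mem_fil_iff (indep_exp c.nilpotent z (c.frame_indep _ (hsub hq))),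
      mkInv_exp c.nilpotent z (c.frame_indep _ (hsub hq))]
    exact h1

end Pool.Agent.Y92.GS
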