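import Pool.Agent.Y92.GS.CuspPrep

/-!
# The nilpotent orbit at the cusp
-/

namespace Pool.Agent.Y92.GS

open Pool.Agent.Y92.RS Filter Asymptotics Finset Metric Matrix
open scoped Topology ComplexConjugate Nat

variable {κ : Type*} [Fintype κ] [DecidableEq κ]

/-- The pure part near the cusp: nilpotent operator, frame adapted to the filtration,
transversality, positivity of the nilpotent orbit. -/
structure Setup (κ : Type*) [Fintype κ] where
  /-- logarithm of monodromy -/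
  N : (κ → ℂ) →L[ℂ] (κ → ℂ)
  /-- exponent of nilpotency -/
  K : ℕ
  N_re : ∀ v, IsR v → IsR (N v)
  N_nil : N ^ K = 0
  /-- radius -/
  r : ℝ
  r_pos : 0 < r
  /-- frame -/
  Φ : ℂ → (κ → ℂ) →L[ℂ] (κ → ℂ)
  /-- inverse of the frame -/
  Ψ : ℂ → (κ → ℂ) →L[ℂ] (κ → ℂ)
  /-- derivative of the frame -/
  Φ' : ℂ → (κ → ℂ) →L[ℂ] (κ → ℂ)
  /-- indices of `F⁰` -/
  P₀ : κ → Prop
  /-- indices of `F⁻¹` -/
  P₁ : κ → Prop
  h01 : ∀ j, P₀ j → P₁ j
  inv1 : ∀ q ∈ ball (0 : ℂ) r, ∀ v, Φ q (Ψ q v) = v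
  inv2 : ∀ q ∈ ball (0 : ℂ) r, ∀ v, Ψ q (Φ q v) = v
  hΦ : ∀ q ∈ ball (0 : ℂ) r, HasDerivAt Φ (Φ' q) q
  hΨ : DifferentiableOn ℂ Ψ (ball 0 r)
  htr : ∀ q ∈ ball (0 : ℂ) r, ∀ c, Off P₀ c →
    Off P₁ (Ψ q (N (Φ q c) + (2 * Real.pi * Complex.I * q) • Φ' q c))
  /-- height above which the nilpotent orbit is positive -/
  y₀ : ℝ
  hpos : ∀ y : ℝ, y₀ < y → Pos (ex N (y * Complex.I) * Φ 0) P₁

variable (S : Setup κ)

theorem Setup.mem0 : (0 : ℂ) ∈ ball (0 : ℂ) S.r := mem_ball_self S.r_pos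

omit [DecidableEq κ] in
theorem Setup.pos_im {z : ℂ} (hz : S.y₀ < z.im) : Pos (ex S.N z * S.Φ 0) S.P₁ := by
  intro c hc hr
  apply S.hpos z.im hz c hc
  have h1 : z = (z.re : ℂ) + (z.im : ℂ) * Complex.I := (Complex.re_add_im z).symm
  rw [h1, ex_add] at hr
  exact isR_of_ex S.N_re S.N_nil z.re hr

omit [DecidableEq κ] in
theorem Setup.pos_im0 {z : ℂ} (hz : S.y₀ < z.im) : Pos (ex S.N z * S.Φ 0) S.P₀ :=
  fun c hc hr => S.pos_im hz c (hc.mono S.h01) hr

omit [DecidableEq κ] in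
theorem hasDerivAt_ex_neg (N : (κ → ℂ) →L[ℂ] (κ → ℂ)) (z : ℂ) :
    HasDerivAt (fun z => ex N (-z)) (-(N * ex N (-z))) z := by
  have h : HasDerivAt (fun z => ex N (-z)) ((-1 : ℂ) • (N * ex N (-z))) z :=
    (hasDerivAt_ex N (-z)).scomp z (hasDerivAt_neg z)
  refine h.congr_deriv ?_
  ext v
  simp

theorem Setup.model_const {μ μ' : ℂ → κ → ℂ} (hμ : ∀ z, HasDerivAt μ (μ' z) z)
    (hhor : ∀ z, Off S.P₁ (S.Ψ 0 (ex S.N (-z) (μ' z)))) {z₀ : ℂ} (hz₀ : S.y₀ < z₀.im)
    {z : ℕ → ℂ} (hz : Tendsto z atTop (𝓝 z₀)) (hne : ∀ n, z n ≠ z₀)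
    (hs : ∀ n, SplitAt (ex S.N (z n) * S.Φ 0) S.P₀ (μ (z n))) :
    ∃ h, IsR h ∧ ∀ z, Off S.P₀ (S.Ψ 0 (ex S.N (-z) (μ z - h))) := by
  have hshift : ∀ u : ℂ, HasDerivAt (fun u => z₀ + u) 1 u := fun u => by
    simpa using (hasDerivAt_id u).const_add z₀
  have hex : ∀ u : ℂ, HasDerivAt (fun u => ex S.N (z₀ + u)) (S.N * ex S.N (z₀ + u)) u := by
    intro u
    exact (hasDerivAt_ex S.N (z₀ + u)).comp_const_add z₀ u
  rcases interior (r := 1) one_pos
    (Φ := fun u => ex S.N (z₀ + u) * S.Φ 0) (Ψ := fun u => S.Ψ 0 * ex S.N (-(z₀ + u)))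
    (Φ' := fun u => S.N * ex S.N (z₀ + u) * S.Φ 0) (P₀ := S.P₀) (P₁ := S.P₁) S.h01
    (fun u _ v => by
      simp only [ContinuousLinearMap.mul_apply]
      rw [S.inv1 0 S.mem0, ex_apply_neg])
    (fun u _ v => by
      simp only [ContinuousLinearMap.mul_apply]
      rw [ex_neg_apply, S.inv2 0 S.mem0])
    (fun u _ => (hex u).mul_const _)
    (by
      have h1 : Differentiable ℂ (fun u : ℂ => ex S.N (-(z₀ + u))) := by
        intro u
        have h2 := (hasDerivAt_ex_neg S.N (z₀ + u)).scomp u (hshift u)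
        exact h2.differentiableAt
      exact (h1.const_mul _).differentiableOn)
    (fun u _ c hc => by
      simp only [ContinuousLinearMap.mul_apply]
      rw [ex_comm_apply, ex_neg_apply]
      have := S.htr 0 S.mem0 c hc
      simpa using this)
    (ν := fun u => μ (z₀ + u)) (ν' := fun u => μ' (z₀ + u))
    (fun u _ => (hμ (z₀ + u)).comp_const_add z₀ u)
    (fun u _ => hhor (z₀ + u))
    (fun c hc hr => S.pos_im hz₀ c hc (by simpa only [add_zero] using hr)) with ⟨ε, hε, -, h⟩ | ⟨ε, hε, -, h, hh, hconst⟩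
  · exfalso
    have h1 : ∀ᶠ n in atTop, ‖z n - z₀‖ < ε := by
      have := hz.eventually (ball_mem_nhds z₀ hε)
      filter_upwards [this] with n hn
      rwa [dist_eq_norm] at hn
    obtain ⟨n, hn⟩ := h1.exists
    apply h (z n - z₀) (sub_ne_zero.mpr (hne n)) hn
    simp only [add_sub_cancel]
    exact hs n
  · refine ⟨h, hh, fun z i hi => ?_⟩
    have hd : Differentiable ℂ (fun z => (S.Ψ 0 (ex S.N (-z) (μ z - h))) i) := by
      intro z
      have h1 : DifferentiableAt ℂ (fun z => ex S.N (-z) (μ z - h)) z :=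
        (hasDerivAt_ex_neg S.N z).differentiableAt.clm_apply
          ((hμ z).differentiableAt.sub_const h)
      have h2 : DifferentiableAt ℂ (fun z => S.Ψ 0 (ex S.N (-z) (μ z - h))) z :=
        (S.Ψ 0).differentiableAt.comp z h1
      exact differentiableAt_pi.mp h2 i
    refine entire_zero hd hε (z₀ := z₀) (fun u hu => ?_) z
    exact hconst u hu i hi

/-- Step 3: the nilpotent orbit is split -/
theorem Setup.split_orbit {b : ℂ → κ → ℂ} (hb : DifferentiableAt ℂ b 0) {w : κ → ℂ} (hw : IsR w)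
    (hs : ∀ y₁ : ℝ, ∃ z : ℂ, y₁ < z.im ∧ SplitAt (ex S.N z * S.Φ (qq z)) S.P₀
      (tz S.N S.K z w + ex S.N z (b (qq z)))) {y : ℝ} (hy : S.y₀ < y) :
    SplitAt (ex S.N (y * Complex.I) * S.Φ 0) S.P₀
      (tz S.N S.K (y * Complex.I) w + ex S.N (y * Complex.I) (b 0)) := by
  classical
  apply split_of_resid
  · exact S.pos_im0 (by simpa using hy)
  have hΦ0 : DifferentiableAt ℂ S.Φ 0 := (S.hΦ 0 S.mem0).differentiableAt
  have hv : ∀ i, Tame (fun y q => (tz S.N S.K (y * Complex.I) w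
      + ex S.N (y * Complex.I) (b q)) i) := fun i =>
    (tame_tz w i).add (tame_ex S.N_nil hb i)
  have hdv : ∀ i, Tame (fun y q => ((tz S.N S.K (y * Complex.I) w
      + ex S.N (y * Complex.I) (b q)) - cj (tz S.N S.K (y * Complex.I) w
      + ex S.N (y * Complex.I) (b q))) i) := fun i => (hv i).sub (hv i).conj
  ext i
  have hT := tame_resid (B := fun y q => Bmat (ex S.N (y * Complex.I) * S.Φ q) S.P₀)
    (fun i s => tame_Bmat S.N_nil hΦ0 S.P₀ i s) hdv i
  refine hT.eq_zero (fun y₁ => ?_) y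
  obtain ⟨z, hz, hsz⟩ := hs y₁
  refine ⟨z.im, hz, qq z, norm_qq z, ?_⟩
  have h1 : z = (z.re : ℂ) + (z.im : ℂ) * Complex.I := (Complex.re_add_im z).symm
  have h2 : SplitAt (ex S.N (z.im * Complex.I) * S.Φ (qq z)) S.P₀
      (tz S.N S.K (z.im * Complex.I) w + ex S.N (z.im * Complex.I) (b (qq z))) := by
    rw [← split_translate S.N_re S.N_nil hw (S.Φ (qq z)) S.P₀ (b (qq z)) z.re, ← h1]
    exact hsz
  exact congrFun (resid_of_split h2) i

/-- Step 4: the constant real vector of the nilpotent orbit -/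
theorem Setup.exists_h {b : ℂ → κ → ℂ} {w : κ → ℂ} (hw : IsR w)
    (hhor : Off S.P₁ (S.Ψ 0 (w + S.N (b 0))))
    (hs : ∀ y : ℝ, S.y₀ < y → SplitAt (ex S.N (y * Complex.I) * S.Φ 0) S.P₀
      (tz S.N S.K (y * Complex.I) w + ex S.N (y * Complex.I) (b 0))) :
    ∃ h, IsR h ∧ w = -S.N h ∧ Off S.P₀ (S.Ψ 0 (b 0 - h)) := by
  have hK := S.N_nil
  obtain ⟨h, hh, hc⟩ := S.model_const
    (μ := fun z => tz S.N S.K z w + ex S.N z (b 0))
    (μ' := fun z => ex S.N z (w + S.N (b 0)))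
    (fun z => by
      have h1 : HasDerivAt (fun z => tz S.N S.K z w) (ex S.N z w) z := by
        have := (hasDerivAt_tz hK z).clm_apply (hasDerivAt_const z w)
        simpa using this
      have h2 := hasDerivAt_ex_apply S.N z (b 0)
      have h3 := h1.add h2
      rw [ex_comm_apply, ← map_add] at h3
      exact h3)
    (fun z => by
      rw [ex_neg_apply]
      exact hhor)
    (z₀ := ((S.y₀ + 1 : ℝ) : ℂ) * Complex.I) (by simp)
    (z := fun n => ((S.y₀ + 1 + 1 / ((n : ℝ) + 1) : ℝ) : ℂ) * Complex.I)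
    (by
      have h1 : Tendsto (fun n : ℕ => (S.y₀ + 1 + 1 / ((n : ℝ) + 1))) atTop
          (𝓝 (S.y₀ + 1 + 0)) := tendsto_one_div_add_atTop_nhds_zero_nat.const_add _
      rw [add_zero] at h1
      exact ((Complex.continuous_ofReal.tendsto _).comp h1).mul_const _)
    (fun n heq => by
      have h1 := mul_right_cancel₀ Complex.I_ne_zero heq
      have h2 : (S.y₀ + 1 + 1 / ((n : ℝ) + 1)) = S.y₀ + 1 := by exact_mod_cast h1
      have h3 : (0 : ℝ) < 1 / ((n : ℝ) + 1) := by positivity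
      linarith)
    (fun n => hs _ (by
      have h3 : (0 : ℝ) < 1 / ((n : ℝ) + 1) := by positivity
      linarith))
  -- `ex (-z) (ν₀ z - h) = b 0 - tz (-z) w - ex (-z) h`
  have hform : ∀ z, ex S.N (-z) (tz S.N S.K z w + ex S.N z (b 0) - h)
      = b 0 - tz S.N S.K (-z) w - ex S.N (-z) h := by
    intro z
    have h1 := tz_add_apply hK (-z) z w
    rw [neg_add_cancel, tz_zero, _root_.zero_apply] at h1
    rw [map_sub, map_add, ex_neg_apply]
    have h2 : ex S.N (-z) (tz S.N S.K z w) = - tz S.N S.K (-z) w :=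
      eq_neg_of_add_eq_zero_right h1.symm
    rw [h2]
    abel
  have hder : ∀ z, HasDerivAt (fun z => ex S.N (-z) (tz S.N S.K z w + ex S.N z (b 0) - h))
      (ex S.N (-z) (w + S.N h)) z := by
    intro z
    have h1 : HasDerivAt (fun z => tz S.N S.K (-z) w) (-(ex S.N (-z) w)) z := by
      have h2 : HasDerivAt (fun z => tz S.N S.K z w) (ex S.N (-z) w) (-z) := by
        have := (hasDerivAt_tz hK (-z)).clm_apply (hasDerivAt_const (-z) w)
        simpa using this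
      have h3 : HasDerivAt (fun z => tz S.N S.K (-z) w) ((-1 : ℂ) • (ex S.N (-z) w)) z :=
        h2.scomp z (hasDerivAt_neg z)
      simpa using h3
    have h4 : HasDerivAt (fun z => ex S.N (-z) h) (-(ex S.N (-z) (S.N h))) z := by
      have := (hasDerivAt_ex_neg S.N z).clm_apply (hasDerivAt_const z h)
      simp only [map_zero, add_zero, _root_.neg_apply,
        ContinuousLinearMap.mul_apply] at this
      rw [ex_comm_apply] at this
      exact this
    have h5 : HasDerivAt (fun z => b 0 - tz S.N S.K (-z) w - ex S.N (-z) h)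
      (-(-(ex S.N (-z) w)) - -(ex S.N (-z) (S.N h))) z := (h1.const_sub (b 0)).sub h4
    have h6 : (fun z => ex S.N (-z) (tz S.N S.K z w + ex S.N z (b 0) - h))
        = fun z => b 0 - tz S.N S.K (-z) w - ex S.N (-z) h := funext hform
    rw [h6, map_add]
    refine h5.congr_deriv ?_
    rw [neg_neg, sub_neg_eq_add]
  have hzero : ∀ z, Off S.P₀ (S.Ψ 0 (ex S.N (-z) (w + S.N h))) := by
    intro z i hi
    have h1 : HasDerivAt (fun z => S.Ψ 0 (ex S.N (-z) (tz S.N S.K z w + ex S.N z (b 0) - h)))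
        (S.Ψ 0 (ex S.N (-z) (w + S.N h))) z := (S.Ψ 0).hasFDerivAt.comp_hasDerivAt z (hder z)
    have h2 := hasDerivAt_pi.mp h1 i
    have h3 : (fun z => S.Ψ 0 (ex S.N (-z) (tz S.N S.K z w + ex S.N z (b 0) - h)) i)
        = fun _ => 0 := funext fun z => hc z i hi
    rw [h3] at h2
    exact h2.unique (hasDerivAt_const z 0)
  have hvr : IsR (w + S.N h) := hw.add (S.N_re h hh)
  have hv0 : w + S.N h = 0 := by
    have h1 := hzero (((S.y₀ + 1 : ℝ) : ℂ) * Complex.I)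
    set c := S.Ψ 0 (ex S.N (-(((S.y₀ + 1 : ℝ) : ℂ) * Complex.I)) (w + S.N h)) with hcdef
    have h2 : (ex S.N (((S.y₀ + 1 : ℝ) : ℂ) * Complex.I) * S.Φ 0) c = w + S.N h := by
      rw [ContinuousLinearMap.mul_apply, hcdef, S.inv1 0 S.mem0, ex_apply_neg]
    have h3 : c = 0 := by
      apply S.pos_im0 (z := ((S.y₀ + 1 : ℝ) : ℂ) * Complex.I) (by simp) c h1
      rw [h2]
      exact hvr
    rw [← h2, h3, map_zero]
  refine ⟨h, hh, eq_neg_of_add_eq_zero_left hv0, ?_⟩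
  have h1 := hc 0
  rw [hform] at h1
  simpa [tz_zero, ex_zero] using h1

end Pool.Agent.Y92.GS
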