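import Pool.Agent.Y92.GS.Tame

/-!
# The residue of a vector modulo the span of the columns of a matrix
-/

namespace Pool.Agent.Y92.GS

open Pool.Agent.Y92.RS Filter Asymptotics Finset Metric Polynomial Matrix
open scoped Topology ComplexConjugate ComplexOrder

variable {κ J : Type*} [Fintype κ] [DecidableEq κ] [Fintype J] [DecidableEq J]

/-- `det(B^* B)` times the component of `v` orthogonal to the columns of `B` -/
noncomputable def resid (B : Matrix κ J ℂ) (v : κ → ℂ) : κ → ℂ :=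
  (Bᴴ * B).det • v - B *ᵥ ((Bᴴ * B).adjugate *ᵥ (Bᴴ *ᵥ v))

omit [DecidableEq κ] in
theorem resid_mulVec (B : Matrix κ J ℂ) (c : J → ℂ) : resid B (B *ᵥ c) = 0 := by
  unfold resid
  have h : (Bᴴ * B).adjugate *ᵥ (Bᴴ *ᵥ (B *ᵥ c)) = (Bᴴ * B).det • c := by
    rw [Matrix.mulVec_mulVec c Bᴴ B, Matrix.mulVec_mulVec, Matrix.adjugate_mul,
      Matrix.smul_mulVec, Matrix.one_mulVec]
  rw [h, Matrix.mulVec_smul, sub_self]

omit [DecidableEq κ] in
theorem resid_sub (B : Matrix κ J ℂ) (v w : κ → ℂ) :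
    resid B (v - w) = resid B v - resid B w := by
  unfold resid
  rw [Matrix.mulVec_sub, Matrix.mulVec_sub, Matrix.mulVec_sub, smul_sub]
  abel

omit [DecidableEq κ] in
theorem resid_smul (B : Matrix κ J ℂ) (t : ℂ) (v : κ → ℂ) :
    resid B (t • v) = t • resid B v := by
  unfold resid
  rw [Matrix.mulVec_smul, Matrix.mulVec_smul, Matrix.mulVec_smul, smul_sub, smul_comm]

omit [DecidableEq κ] in
theorem det_gram_ne_zero {B : Matrix κ J ℂ} (hB : ∀ c, B *ᵥ c = 0 → c = 0) :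
    (Bᴴ * B).det ≠ 0 := by
  intro h
  obtain ⟨v, hv, hv2⟩ := Matrix.exists_mulVec_eq_zero_iff.mpr h
  rw [Matrix.conjTranspose_mul_self_mulVec_eq_zero] at hv2
  exact hv (hB v hv2)

omit [DecidableEq κ] in
theorem exists_of_resid {B : Matrix κ J ℂ} (hB : ∀ c, B *ᵥ c = 0 → c = 0) {v : κ → ℂ}
    (h : resid B v = 0) : ∃ c, v = B *ᵥ c := by
  have hd := det_gram_ne_zero hB
  unfold resid at h
  refine ⟨((Bᴴ * B).det)⁻¹ • ((Bᴴ * B).adjugate *ᵥ (Bᴴ *ᵥ v)), ?_⟩
  rw [Matrix.mulVec_smul, ← sub_eq_zero.mp h, smul_smul, inv_mul_cancel₀ hd, one_smul]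

theorem Tame.det {A : ℝ → ℂ → Matrix J J ℂ} (hA : ∀ i j, Tame (fun y q => A y q i j)) :
    Tame (fun y q => (A y q).det) := by
  refine Tame.congr (Tame.sum (univ : Finset (Equiv.Perm J))
    (f := fun σ y q => ((Equiv.Perm.sign σ : ℤ) : ℂ) * ∏ i, A y q (σ i) i) fun σ _ => ?_) ?_
  · exact (Tame.const _).mul (Tame.prod _ fun i _ => hA _ _)
  · intro y q
    rw [Matrix.det_apply']

theorem Tame.adjugate {A : ℝ → ℂ → Matrix J J ℂ} (hA : ∀ i j, Tame (fun y q => A y q i j))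
    (i j : J) : Tame (fun y q => (A y q).adjugate i j) := by
  simp only [Matrix.adjugate_apply]
  apply Tame.det
  intro a b
  by_cases h : a = j
  · simp only [h, Matrix.updateRow_self]
    exact Tame.const _
  · simp only [Matrix.updateRow_ne h]
    exact hA a b

theorem Tame.mulMat {A : ℝ → ℂ → Matrix κ J ℂ} {L : Type*} {A' : ℝ → ℂ → Matrix J L ℂ}
    (hA : ∀ i j, Tame (fun y q => A y q i j)) (hA' : ∀ i j, Tame (fun y q => A' y q i j))
    (i : κ) (j : L) : Tame (fun y q => (A y q * A' y q) i j) := by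
  simp only [Matrix.mul_apply]
  exact Tame.sum _ fun k _ => (hA i k).mul (hA' k j)

theorem Tame.mulVec {A : ℝ → ℂ → Matrix κ J ℂ} {v : ℝ → ℂ → J → ℂ}
    (hA : ∀ i j, Tame (fun y q => A y q i j)) (hv : ∀ j, Tame (fun y q => v y q j))
    (i : κ) : Tame (fun y q => (A y q *ᵥ v y q) i) := by
  simp only [Matrix.mulVec, dotProduct]
  exact Tame.sum _ fun k _ => (hA i k).mul (hv k)

theorem tame_resid {B : ℝ → ℂ → Matrix κ J ℂ} {v : ℝ → ℂ → κ → ℂ}
    (hB : ∀ i j, Tame (fun y q => B y q i j)) (hv : ∀ j, Tame (fun y q => v y q j)) (i : κ) :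
    Tame (fun y q => resid (B y q) (v y q) i) := by
  have h1 : ∀ j i, Tame (fun y q => (B y q)ᴴ j i) := fun j i => by
    simp only [Matrix.conjTranspose_apply]
    exact (hB i j).conj
  have h2 : ∀ i j, Tame (fun y q => ((B y q)ᴴ * B y q) i j) := fun i j => Tame.mulMat h1 hB i j
  unfold resid
  simp only [Pi.sub_apply, Pi.smul_apply, smul_eq_mul]
  refine ((Tame.det h2).mul (hv i)).sub ?_
  refine Tame.mulVec hB (fun j => ?_) i
  refine Tame.mulVec (fun i j => Tame.adjugate h2 i j) (fun j => ?_) j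
  exact Tame.mulVec h1 hv j

end Pool.Agent.Y92.GS
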