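import Pool.Agent.Y92.RS.Cusp

/-!
# Tame functions of `y` and `q`

`f(y, q)` is tame if `f(y, 0)` is a polynomial in `y` and `f(y, q) - f(y, 0)` is
`O((1 + y) ^ K |q|)`.
-/

namespace Pool.Agent.Y92.GS

open Pool.Agent.Y92.RS Filter Asymptotics Finset Metric Polynomial
open scoped Topology ComplexConjugate

/-- tame functions -/
def Tame (f : ℝ → ℂ → ℂ) : Prop :=
  IsPolyFun (fun y => f y 0) ∧ ∃ ρ : ℝ, 0 < ρ ∧ ∃ C : ℝ, 0 ≤ C ∧ ∃ K : ℕ, ∀ y : ℝ, 0 ≤ y →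
    ∀ q : ℂ, ‖q‖ < ρ → ‖f y q - f y 0‖ ≤ C * (1 + y) ^ K * ‖q‖

theorem Tame.const (c : ℂ) : Tame (fun _ _ => c) :=
  ⟨IsPolyFun.const c, 1, one_pos, 0, le_rfl, 0, fun y _ q _ => by simp⟩

theorem Tame.id' : Tame (fun y _ => (y : ℂ)) :=
  ⟨IsPolyFun.id', 1, one_pos, 0, le_rfl, 0, fun y _ q _ => by simp⟩

theorem poly_growth {f : ℝ → ℂ} (hf : IsPolyFun f) :
    ∃ C : ℝ, 0 ≤ C ∧ ∃ K : ℕ, ∀ y : ℝ, 0 ≤ y → ‖f y‖ ≤ C * (1 + y) ^ K := by
  obtain ⟨P, hP⟩ := hf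
  refine ⟨∑ i ∈ range (P.natDegree + 1), ‖P.coeff i‖, by positivity, P.natDegree, fun y hy => ?_⟩
  rw [hP, Polynomial.eval_eq_sum_range, Finset.sum_mul]
  refine (norm_sum_le _ _).trans (Finset.sum_le_sum fun i hi => ?_)
  have hi' : i ≤ P.natDegree := by
    have := Finset.mem_range.mp hi
    omega
  rw [norm_mul, norm_pow, Complex.norm_real, Real.norm_of_nonneg hy]
  have h1 : y ^ i ≤ (1 + y) ^ P.natDegree := by
    calc y ^ i ≤ (1 + y) ^ i := by gcongr; linarith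
      _ ≤ (1 + y) ^ P.natDegree := pow_le_pow_right₀ (by linarith) hi'
  gcongr

theorem Tame.add {f g : ℝ → ℂ → ℂ} (hf : Tame f) (hg : Tame g) :
    Tame (fun y q => f y q + g y q) := by
  obtain ⟨hf1, ρ, hρ, C, hC, K, hf2⟩ := hf
  obtain ⟨hg1, ρ', hρ', C', hC', K', hg2⟩ := hg
  refine ⟨hf1.add hg1, min ρ ρ', lt_min hρ hρ', C + C', by positivity, K + K', fun y hy q hq => ?_⟩
  have h1 := hf2 y hy q (lt_of_lt_of_le hq (min_le_left _ _))
  have h2 := hg2 y hy q (lt_of_lt_of_le hq (min_le_right _ _))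
  have h3 : (1 + y) ^ K ≤ (1 + y) ^ (K + K') := pow_le_pow_right₀ (by linarith) (by omega)
  have h4 : (1 + y) ^ K' ≤ (1 + y) ^ (K + K') := pow_le_pow_right₀ (by linarith) (by omega)
  calc ‖f y q + g y q - (f y 0 + g y 0)‖ = ‖(f y q - f y 0) + (g y q - g y 0)‖ := by
        congr 1; ring
    _ ≤ ‖f y q - f y 0‖ + ‖g y q - g y 0‖ := norm_add_le _ _
    _ ≤ C * (1 + y) ^ K * ‖q‖ + C' * (1 + y) ^ K' * ‖q‖ := add_le_add h1 h2
    _ ≤ C * (1 + y) ^ (K + K') * ‖q‖ + C' * (1 + y) ^ (K + K') * ‖q‖ := by gcongr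
    _ = (C + C') * (1 + y) ^ (K + K') * ‖q‖ := by ring

theorem Tame.mul {f g : ℝ → ℂ → ℂ} (hf : Tame f) (hg : Tame g) :
    Tame (fun y q => f y q * g y q) := by
  obtain ⟨hf1, ρ, hρ, C, hC, K, hf2⟩ := hf
  obtain ⟨hg1, ρ', hρ', C', hC', K', hg2⟩ := hg
  obtain ⟨A, hA, L, hfA⟩ := poly_growth hf1
  obtain ⟨A', hA', L', hgA⟩ := poly_growth hg1
  refine ⟨hf1.mul hg1, min (min ρ ρ') 1, lt_min (lt_min hρ hρ') one_pos,
    C * C' + C * A' + A * C', by positivity, K + K' + L + L', fun y hy q hq => ?_⟩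
  have h1 := hf2 y hy q (lt_of_lt_of_le hq ((min_le_left _ _).trans (min_le_left _ _)))
  have h2 := hg2 y hy q (lt_of_lt_of_le hq ((min_le_left _ _).trans (min_le_right _ _)))
  have hq1 : ‖q‖ ≤ 1 := (lt_of_lt_of_le hq (min_le_right _ _)).le
  have h3 := hfA y hy
  have h4 := hgA y hy
  set T : ℝ := 1 + y with hT
  have hT1 : 1 ≤ T := by linarith
  have e1 : T ^ K * T ^ K' ≤ T ^ (K + K' + L + L') := by
    rw [← pow_add]; exact pow_le_pow_right₀ hT1 (by omega)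
  have e2 : T ^ K * T ^ L' ≤ T ^ (K + K' + L + L') := by
    rw [← pow_add]; exact pow_le_pow_right₀ hT1 (by omega)
  have e3 : T ^ L * T ^ K' ≤ T ^ (K + K' + L + L') := by
    rw [← pow_add]; exact pow_le_pow_right₀ hT1 (by omega)
  have hq0 : 0 ≤ ‖q‖ := norm_nonneg q
  calc ‖f y q * g y q - f y 0 * g y 0‖
      = ‖(f y q - f y 0) * (g y q - g y 0) + (f y q - f y 0) * g y 0
          + f y 0 * (g y q - g y 0)‖ := by congr 1; ring
    _ ≤ ‖(f y q - f y 0) * (g y q - g y 0)‖ + ‖(f y q - f y 0) * g y 0‖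
          + ‖f y 0 * (g y q - g y 0)‖ := norm_add₃_le
    _ = ‖f y q - f y 0‖ * ‖g y q - g y 0‖ + ‖f y q - f y 0‖ * ‖g y 0‖
          + ‖f y 0‖ * ‖g y q - g y 0‖ := by simp only [norm_mul]
    _ ≤ (C * T ^ K * ‖q‖) * (C' * T ^ K' * ‖q‖) + (C * T ^ K * ‖q‖) * (A' * T ^ L')
          + (A * T ^ L) * (C' * T ^ K' * ‖q‖) := by gcongr
    _ = (C * C') * (T ^ K * T ^ K') * ‖q‖ * ‖q‖ + (C * A') * (T ^ K * T ^ L') * ‖q‖
          + (A * C') * (T ^ L * T ^ K') * ‖q‖ := by ring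
    _ ≤ (C * C') * (T ^ (K + K' + L + L')) * ‖q‖ * 1 + (C * A') * (T ^ (K + K' + L + L')) * ‖q‖
          + (A * C') * (T ^ (K + K' + L + L')) * ‖q‖ := by gcongr
    _ = (C * C' + C * A' + A * C') * T ^ (K + K' + L + L') * ‖q‖ := by ring

theorem Tame.neg {f : ℝ → ℂ → ℂ} (hf : Tame f) : Tame (fun y q => -f y q) := by
  have := (Tame.const (-1)).mul hf
  simpa using this

theorem Tame.sub {f g : ℝ → ℂ → ℂ} (hf : Tame f) (hg : Tame g) :
    Tame (fun y q => f y q - g y q) := by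
  have := hf.add hg.neg
  simpa [sub_eq_add_neg] using this

theorem Tame.sum {ι : Type*} (s : Finset ι) {f : ι → ℝ → ℂ → ℂ} (hf : ∀ i ∈ s, Tame (f i)) :
    Tame (fun y q => ∑ i ∈ s, f i y q) := by
  classical
  induction s using Finset.induction_on with
  | empty => simpa using Tame.const 0
  | insert a s ha ih =>
    have h1 := hf a (Finset.mem_insert_self a s)
    have h2 := ih (fun i hi => hf i (Finset.mem_insert_of_mem hi))
    simpa [Finset.sum_insert ha] using h1.add h2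

theorem Tame.prod {ι : Type*} (s : Finset ι) {f : ι → ℝ → ℂ → ℂ} (hf : ∀ i ∈ s, Tame (f i)) :
    Tame (fun y q => ∏ i ∈ s, f i y q) := by
  classical
  induction s using Finset.induction_on with
  | empty => simpa using Tame.const 1
  | insert a s ha ih =>
    have h1 := hf a (Finset.mem_insert_self a s)
    have h2 := ih (fun i hi => hf i (Finset.mem_insert_of_mem hi))
    simpa [Finset.prod_insert ha] using h1.mul h2

theorem Tame.pow {f : ℝ → ℂ → ℂ} (hf : Tame f) (n : ℕ) : Tame (fun y q => f y q ^ n) := by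
  have := Tame.prod (range n) (f := fun _ => f) (fun _ _ => hf)
  simpa using this

theorem Tame.conj {f : ℝ → ℂ → ℂ} (hf : Tame f) : Tame (fun y q => conj (f y q)) := by
  obtain ⟨hf1, ρ, hρ, C, hC, K, hf2⟩ := hf
  refine ⟨hf1.conj, ρ, hρ, C, hC, K, fun y hy q hq => ?_⟩
  rw [← map_sub, RCLike.norm_conj]
  exact hf2 y hy q hq

/-- a function of `q` differentiable near `0` is tame -/
theorem Tame.of_holo {f : ℂ → ℂ} (hf : DifferentiableAt ℂ f 0) : Tame (fun _ q => f q) := by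
  refine ⟨IsPolyFun.const (f 0), ?_⟩
  obtain ⟨C, hC⟩ := (hf.hasDerivAt.isBigO_sub).bound
  obtain ⟨ρ, hρ, hρ2⟩ := Metric.eventually_nhds_iff.mp hC
  refine ⟨ρ, hρ, |C|, abs_nonneg _, 0, fun y _ q hq => ?_⟩
  have h := hρ2 (y := q) (by simpa using hq)
  rw [sub_zero] at h
  rw [pow_zero, mul_one]
  exact h.trans (mul_le_mul_of_nonneg_right (le_abs_self C) (norm_nonneg _))

theorem Tame.congr {f g : ℝ → ℂ → ℂ} (hf : Tame f) (h : ∀ y q, g y q = f y q) : Tame g := by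
  have : g = f := by ext y q; exact h y q
  rwa [this]

/-- the main property: if a tame function has zeros `(y, q)` with `|q| = exp (- 2 π y)` and `y`
arbitrarily large, then `f(y, 0)` vanishes identically. -/
theorem Tame.eq_zero {f : ℝ → ℂ → ℂ} (hf : Tame f)
    (h : ∀ y₁ : ℝ, ∃ y > y₁, ∃ q : ℂ, ‖q‖ = Real.exp (-(2 * Real.pi * y)) ∧ f y q = 0) :
    ∀ y : ℝ, f y 0 = 0 := by
  obtain ⟨hf1, ρ, hρ, C, hC, K, hf2⟩ := hf
  have key : ∀ y₁ : ℝ, ∃ y > y₁,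
      ‖f y 0‖ ≤ C * (1 + y) ^ K * Real.exp (-(2 * Real.pi * y)) := by
    intro y₁
    obtain ⟨c', hc1, hc2⟩ := exists_exp_le (ρ := ρ / 2) (by positivity) (max y₁ 0)
    obtain ⟨y, hy, q, hq, hfq⟩ := h c'
    have hy0 : 0 ≤ y := ((le_max_right _ _).trans hc1).trans hy.le
    refine ⟨y, lt_of_le_of_lt ((le_max_left _ _).trans hc1) hy, ?_⟩
    have hqρ : ‖q‖ < ρ := by
      rw [hq]
      have : Real.exp (-(2 * Real.pi * y)) ≤ Real.exp (-(2 * Real.pi * c')) := by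
        apply Real.exp_le_exp.mpr
        have := Real.pi_pos
        nlinarith
      linarith
    have := hf2 y hy0 q hqρ
    rw [hfq, zero_sub, norm_neg, hq] at this
    exact this
  have him : ∀ g : ℝ → ℂ, IsPolyFun g → (∀ y, ‖g y‖ = ‖f y 0‖) → ∀ y, (g y).im = 0 := by
    intro g hg hgf
    refine hg.im_eq_zero C K fun y₁ => ?_
    obtain ⟨y, hy, hy2⟩ := key y₁
    refine ⟨y, hy, (Complex.abs_im_le_norm _).trans ?_⟩
    rw [hgf]
    exact hy2
  intro y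
  have h1 := him (fun y => f y 0) hf1 (fun _ => rfl) y
  have h2 := him (fun y => Complex.I * f y 0) ((IsPolyFun.const Complex.I).mul hf1)
    (fun y => by rw [norm_mul, Complex.norm_I, one_mul]) y
  rw [Complex.I_mul_im] at h2
  exact Complex.ext h2 h1

end Pool.Agent.Y92.GS
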